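import Mathlib
import Pool.Agent.H630R2.LA.Defs

/-!
# 1-limited automata whose written symbols are determined by the letters: definitions
-/

set_option autoImplicit false

namespace Pool.Agent.TH588.LQ

open Pool.Agent.H630R2.LA

/-- The symbol that the automaton writes in a cell at the first visit depends only on the letter
in the cell. -/
def LetterWriting {A : Type} (M : LimAut A) : Prop :=
  ∀ a : A, ∃ c : M.W, ∀ q x, x ∈ M.δ q (.sym (M.inp a)) → x.2.1 = c

/-- The automaton never changes the content of a cell: it is a two-way nondeterministic finite
automaton. -/
def NeverRewrites {A : Type} (M : LimAut A) : Prop :=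
  ∀ q σ x, x ∈ M.δ q σ → σ.rewrite x.2.1 = σ

/-- The values `detSize L(M)` for the automata `M` of size at most `n` whose written symbols are
determined by the letters. -/
def costsL (strict : Prop) (n : ℕ) : Set ℕ :=
  {s | ∃ (A : Type) (_ : Finite A) (M : LimAut A), LetterWriting M ∧ M.size ≤ n ∧
    s = detSize strict (M.language strict)}

/-- The worst-case size cost of determinization, restricted to the automata whose written symbols
are determined by the letters. -/
noncomputable def DL (strict : Prop) (n : ℕ) : ℕ := sSup (costsL strict n)

end Pool.Agent.TH588.LQ
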