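import Mathlib
import Pool.Agent.H630R2.LA.Tab

/-!
# 1-limited automata whose written symbol is determined by the letter

For such an automaton the table of the visited part of the tape is a function of the input. The
tables and the sets of states in which the head reaches a cell for the first time are described
here, `N` cells further to the right, by paths in a graph with `(N + 2) ^ 2` vertices for each
state.
-/

set_option autoImplicit false

namespace Pool.Agent.TH588.LQ

open Pool.Agent.H630R2.LA Relation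

variable {A : Type} (strict : Prop) (M : LimAut A) (ψ : A → M.W)

/-- The tape after all its cells have been visited. -/
def frz (w : List A) : ℕ → Sym M.W
  | 0 => .lm
  | i + 1 => match w[i]? with
    | some a => .sym (ψ a)
    | none => .rm

/-- The state `q` is one in which the machine can arrive at the cell `m + 1` for the first time. -/
def Ent (w : List A) (m : ℕ) (q : M.Q) : Prop :=
  nreach strict M (initTape M w) m (Tab strict M (frz M ψ w) m, q)

/-- The moves on a cell with the letter symbol `si`, which holds `sf` after the first visit. The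
vertices are triples: state, position, number of visited cells. -/
def EL (sf si : Sym M.W) (u v : M.Q × ℕ × ℕ) : Prop :=
  (u.2.1 ≤ u.2.2 ∧ v.2.2 = u.2.2 ∧ ∃ d, fz strict M u.1 sf v.1 d ∧
    (d = true → v.2.1 = u.2.1 + 1) ∧ (d = false → v.2.1 + 1 = u.2.1)) ∨
  (u.2.1 = u.2.2 + 1 ∧ v.2.2 = u.2.2 + 1 ∧ ∃ b d, (v.1, b, d) ∈ M.δ u.1 si ∧
    (d = true → v.2.1 = u.2.1 + 1) ∧ (d = false → v.2.1 + 1 = u.2.1))

/-- The moves in the `N` cells after the cell `m`; position `0` stands for the cells `0..m`. -/
def GS (w : List A) (m N : ℕ) (u v : M.Q × ℕ × ℕ) : Prop :=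
  (u.2.1 = 0 ∧ v.2.1 = 1 ∧ v.2.2 = u.2.2 ∧ (u.1, v.1) ∈ Tab strict M (frz M ψ w) m) ∨
  (1 ≤ u.2.1 ∧ u.2.1 ≤ N ∧
    EL strict M (frz M ψ w (m + u.2.1)) (initTape M w (m + u.2.1)) u v)

variable {strict M ψ}

/-- The table is determined by the input. -/
theorem tab_of_nreach (hψ : ∀ q a q' b d, (q', b, d) ∈ M.δ q (.sym (M.inp a)) → b = ψ a)
    (w : List A) (m : ℕ) : ∀ x : Set (M.Q × M.Q) × M.Q,
    nreach strict M (initTape M w) m x → x.1 = Tab strict M (frz M ψ w) m := by
  induction m with
  | zero =>
    intro x hx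
    have hx' : x = (ext strict M ∅ .lm, M.q0) := hx
    rw [hx', Tab_zero]
    rfl
  | succ m ih =>
    rintro x ⟨y, hy, q, b, d, hδ, hR, -, -⟩
    rw [hR, Tab_succ, ih y hy]
    congr 1
    cases hw : w[m]? with
    | none =>
      have h1 : initTape M w (m + 1) = .rm := by simp only [initTape, hw]
      have h2 : frz M ψ w (m + 1) = .rm := by simp only [frz, hw]
      rw [h1, h2]
      rfl
    | some a =>
      have h1 : initTape M w (m + 1) = .sym (M.inp a) := by simp only [initTape, hw]
      have h2 : frz M ψ w (m + 1) = .sym (ψ a) := by simp only [frz, hw]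
      rw [h1] at hδ ⊢
      rw [h2, hψ _ _ _ _ _ hδ]
      rfl

theorem ent_zero (w : List A) (q : M.Q) : Ent strict M ψ w 0 q ↔ q = M.q0 := by
  unfold Ent
  constructor
  · intro h
    have h' : (Tab strict M (frz M ψ w) 0, q) = (ext strict M ∅ .lm, M.q0) := h
    exact (Prod.mk.inj h').2
  · rintro rfl
    show (Tab strict M (frz M ψ w) 0, M.q0) = (ext strict M ∅ .lm, M.q0)
    rw [Tab_zero]
    rfl

theorem ent_succ (hψ : ∀ q a q' b d, (q', b, d) ∈ M.δ q (.sym (M.inp a)) → b = ψ a)
    (w : List A) (m : ℕ) (q' : M.Q) : Ent strict M ψ w (m + 1) q' ↔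
      ∃ q, Ent strict M ψ w m q ∧ ∃ r b d, (r, b, d) ∈ M.δ q (initTape M w (m + 1)) ∧
        (d = true → q' = r) ∧ (d = false → ∃ s, (r, s) ∈ Tab strict M (frz M ψ w) m ∧
          (s, q') ∈ Tab strict M (frz M ψ w) (m + 1)) := by
  constructor
  · rintro ⟨y, hy, r, b, d, hδ, -, h1, h2⟩
    have h3 := tab_of_nreach hψ w m y hy
    refine ⟨y.2, ?_, r, b, d, hδ, h1, ?_⟩
    · unfold Ent
      rw [← h3]
      exact hy
    · rw [← h3]
      exact h2
  · rintro ⟨q, hq, r, b, d, hδ, h1, h2⟩
    refine ⟨_, hq, r, b, d, hδ, ?_, h1, h2⟩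
    show Tab strict M (frz M ψ w) (m + 1) = _
    rw [Tab_succ]
    congr 1
    cases hw : w[m]? with
    | none =>
      have h1 : initTape M w (m + 1) = .rm := by simp only [initTape, hw]
      have h2 : frz M ψ w (m + 1) = .rm := by simp only [frz, hw]
      rw [h1, h2]
      rfl
    | some a =>
      have h1 : initTape M w (m + 1) = .sym (M.inp a) := by simp only [initTape, hw]
      have h2 : frz M ψ w (m + 1) = .sym (ψ a) := by simp only [frz, hw]
      rw [h1] at hδ ⊢
      rw [h2, hψ _ _ _ _ _ hδ]
      rfl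

theorem mem_language_iff (hψ : ∀ q a q' b d, (q', b, d) ∈ M.δ q (.sym (M.inp a)) → b = ψ a)
    (w : List A) : w ∈ M.language strict ↔ ∃ f ∈ M.F, Ent strict M ψ w (w.length + 1) f := by
  rw [mem_language]
  constructor
  · rintro ⟨R, f, h1, h2⟩
    refine ⟨f, h2, ?_⟩
    have h3 := tab_of_nreach hψ w _ _ h1
    unfold Ent
    rw [← h3]
    exact h1
  · rintro ⟨f, h1, h2⟩
    exact ⟨_, f, h2, h1⟩

theorem tab_complete {w : List A} {m N n f : ℕ} {p q : M.Q} (hnf : n ≤ f) (hnN : n ≤ N)
    (h : (p, q) ∈ Tab strict M (frz M ψ w) (m + n)) :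
    ReflTransGen (GS strict M ψ w m N) (p, n, f) (q, n + 1, f) := by
  have h' : ReflTransGen (Fr strict M (frz M ψ w) (m + n)) (p, m + n) (q, m + n + 1) := h
  have key : ∀ c : M.Q × ℕ, ReflTransGen (Fr strict M (frz M ψ w) (m + n)) c (q, m + n + 1) →
      (m < c.2 → ReflTransGen (GS strict M ψ w m N) (c.1, c.2 - m, f) (q, n + 1, f)) ∧
      (c.2 ≤ m → ∃ t, ReflTransGen (Fr strict M (frz M ψ w) m) c (t, m + 1) ∧
        ReflTransGen (GS strict M ψ w m N) (t, 1, f) (q, n + 1, f)) := by
    intro c hc
    induction hc using ReflTransGen.head_induction_on with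
    | refl =>
      refine ⟨fun _ => ?_, fun h => ?_⟩
      · have h1 : m + n + 1 - m = n + 1 := by omega
        rw [h1]
      · have h2 : m + n + 1 ≤ m := h
        omega
    | head h1 h2 ih =>
      rename_i a b
      obtain ⟨h3, d, h4, h5, h6⟩ := h1
      constructor
      · intro ha
        have hm : m + (a.2 - m) = a.2 := by omega
        have hstep : ∀ i', (d = true → i' = a.2 - m + 1) → (d = false → i' + 1 = a.2 - m) →
            GS strict M ψ w m N (a.1, a.2 - m, f) (b.1, i', f) := by
          intro i' h7 h8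
          refine Or.inr ⟨by show 1 ≤ a.2 - m; omega, by show a.2 - m ≤ N; omega, Or.inl
            ⟨by show a.2 - m ≤ f; omega, rfl, d, ?_, h7, h8⟩⟩
          show fz strict M a.1 (frz M ψ w (m + (a.2 - m))) b.1 d
          rw [hm]
          exact h4
        by_cases hb : m < b.2
        · refine ReflTransGen.head (hstep (b.2 - m) ?_ ?_) (ih.1 hb)
          · intro hd; have := h5 hd; omega
          · intro hd; have := h6 hd; omega
        · obtain ⟨t, ht1, ht2⟩ := ih.2 (by omega)
          have hd : d = false := by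
            cases d
            · rfl
            · have := h5 rfl; omega
          have h7 := h6 hd
          have hb2 : b.2 = m := by omega
          refine ReflTransGen.head (hstep 0 (fun h => ?_) (fun _ => by omega)) ?_
          · rw [hd] at h; exact absurd h (by simp)
          · refine ReflTransGen.head (b := (t, 1, f)) (Or.inl ⟨rfl, rfl, rfl, ?_⟩) ht2
            show ReflTransGen _ (b.1, m) (t, m + 1)
            have : b = (b.1, m) := by rw [← hb2]
            rw [← this]
            exact ht1
      · intro ha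
        by_cases hb : b.2 ≤ m
        · obtain ⟨t, ht1, ht2⟩ := ih.2 hb
          exact ⟨t, ReflTransGen.head ⟨ha, d, h4, h5, h6⟩ ht1, ht2⟩
        · have hb2 : b.2 = m + 1 := by
            cases d
            · have := h6 rfl; omega
            · have := h5 rfl; omega
          have h7 := ih.1 (by omega)
          have h8 : b.2 - m = 1 := by omega
          rw [h8] at h7
          refine ⟨b.1, ?_, h7⟩
          have : (b.1, m + 1) = b := by rw [← hb2]
          rw [this]
          exact ReflTransGen.single ⟨ha, d, h4, h5, h6⟩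
  rcases Nat.eq_zero_or_pos n with h0 | h0
  · subst h0
    obtain ⟨t, ht1, ht2⟩ := (key _ h').2 (by simp)
    refine ReflTransGen.head (b := (t, 1, f)) (Or.inl ⟨rfl, rfl, rfl, ?_⟩) ht2
    exact ht1
  · have h1 := (key _ h').1 (by simp; omega)
    have h2 : m + n - m = n := by omega
    simp only [h2] at h1
    exact h1

theorem tab_sound {w : List A} {m N : ℕ} {p q : M.Q}
    (h : ReflTransGen (GS strict M ψ w m N) (p, N, N) (q, N + 1, N)) :
    (p, q) ∈ Tab strict M (frz M ψ w) (m + N) := by
  have key : ∀ u : M.Q × ℕ × ℕ, ReflTransGen (GS strict M ψ w m N) (p, N, N) u →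
      u.2.2 = N ∧ ReflTransGen (Fr strict M (frz M ψ w) (m + N)) (p, m + N) (u.1, m + u.2.1) := by
    intro u hu
    induction hu with
    | refl => exact ⟨rfl, ReflTransGen.refl⟩
    | tail _ hstep ih =>
      rename_i u v _
      obtain ⟨ih1, ih2⟩ := ih
      rcases hstep with ⟨h1, h2, h3, h4⟩ | ⟨h1, h2, h3⟩
      · refine ⟨h3.trans ih1, ih2.trans ?_⟩
        rw [h1, h2]
        exact FrS.mono (Nat.le_add_right m N) h4
      · rcases h3 with ⟨h4, h5, d, h6, h7, h8⟩ | ⟨h4, _⟩
        · refine ⟨h5.trans ih1, ih2.tail ⟨by show m + u.2.1 ≤ m + N; omega, d, h6, ?_, ?_⟩⟩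
          · intro hd; have := h7 hd; show m + v.2.1 = m + u.2.1 + 1; omega
          · intro hd; have := h8 hd; show m + v.2.1 + 1 = m + u.2.1; omega
        · omega
  exact (key _ h).2

theorem ent_complete (hψ : ∀ q a q' b d, (q', b, d) ∈ M.δ q (.sym (M.inp a)) → b = ψ a)
    {w : List A} {m N : ℕ} (n : ℕ) : ∀ q' : M.Q, n ≤ N → Ent strict M ψ w (m + n) q' →
    ∃ q, Ent strict M ψ w m q ∧
      ReflTransGen (GS strict M ψ w m N) (q, 1, 0) (q', n + 1, n) := by
  induction n with
  | zero => intro q' _ h; exact ⟨q', h, ReflTransGen.refl⟩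
  | succ n ih =>
    intro q' hn h
    have h' : Ent strict M ψ w ((m + n) + 1) q' := h
    rw [ent_succ hψ] at h'
    obtain ⟨q1, hq1, r, b, d, hδ, h1, h2⟩ := h'
    obtain ⟨q, hq, hpath⟩ := ih q1 (by omega) hq1
    refine ⟨q, hq, hpath.trans ?_⟩
    have hstep : ∀ i', (d = true → i' = n + 1 + 1) → (d = false → i' + 1 = n + 1) →
        GS strict M ψ w m N (q1, n + 1, n) (r, i', n + 1) := by
      intro i' h7 h8
      exact Or.inr ⟨by show 1 ≤ n + 1; omega, by show n + 1 ≤ N; omega,
        Or.inr ⟨rfl, rfl, b, d, hδ, h7, h8⟩⟩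
    cases d
    · obtain ⟨s, hs1, hs2⟩ := h2 rfl
      refine ReflTransGen.head (hstep n (fun h => absurd h (by simp)) (fun _ => rfl)) ?_
      refine (tab_complete (by omega) (by omega) hs1).trans ?_
      exact tab_complete le_rfl hn hs2
    · have h3 := h1 rfl
      rw [h3]
      exact ReflTransGen.single (hstep (n + 1 + 1) (fun _ => rfl) (fun h => absurd h (by simp)))

theorem ent_sound (hψ : ∀ q a q' b d, (q', b, d) ∈ M.δ q (.sym (M.inp a)) → b = ψ a)
    {w : List A} {m N : ℕ} {q : M.Q} (hq : Ent strict M ψ w m q) (u : M.Q × ℕ × ℕ)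
    (h : ReflTransGen (GS strict M ψ w m N) (q, 1, 0) u) :
    u.2.1 ≤ u.2.2 + 1 ∧ ∀ t, ReflTransGen (Fr strict M (frz M ψ w) (m + u.2.2)) (u.1, m + u.2.1)
      (t, m + u.2.2 + 1) → Ent strict M ψ w (m + u.2.2) t := by
  induction h with
  | refl =>
    refine ⟨le_rfl, ?_⟩
    intro t ht
    rcases ReflTransGen.cases_head ht with h1 | ⟨c, h1, _⟩
    · have h2 : q = t := congrArg Prod.fst h1
      rw [← h2]
      exact hq
    · have h2 : m + 1 ≤ m + 0 := h1.1
      omega
  | tail _ hstep ih =>
    rename_i u v _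
    obtain ⟨ih1, ih2⟩ := ih
    rcases hstep with ⟨h1, h2, h3, h4⟩ | ⟨h1, h2, h3⟩
    · refine ⟨by rw [h2]; omega, ?_⟩
      intro t ht
      rw [h3] at ht ⊢
      apply ih2
      rw [h1]
      rw [h2] at ht
      exact (FrS.mono (Nat.le_add_right m _) h4).trans ht
    · rcases h3 with ⟨h4, h5, d, h6, h7, h8⟩ | ⟨h4, h5, b, d, h6, h7, h8⟩
      · refine ⟨?_, ?_⟩
        · cases d
          · have := h8 rfl; omega
          · have := h7 rfl; omega
        · intro t ht
          rw [h5] at ht ⊢
          apply ih2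
          refine ReflTransGen.head ⟨by show m + u.2.1 ≤ m + u.2.2; omega, d, h6, ?_, ?_⟩ ht
          · intro hd; have := h7 hd; show m + v.2.1 = m + u.2.1 + 1; omega
          · intro hd; have := h8 hd; show m + v.2.1 + 1 = m + u.2.1; omega
      · have hu : Ent strict M ψ w (m + u.2.2) u.1 := by
          apply ih2
          rw [h4]
          exact ReflTransGen.refl
        refine ⟨?_, ?_⟩
        · cases d
          · have := h8 rfl; omega
          · have := h7 rfl; omega
        · intro t ht
          rw [h5] at ht ⊢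
          have hgoal : Ent strict M ψ w (m + u.2.2 + 1) t := by
            rw [ent_succ hψ]
            rw [h4] at h6
            refine ⟨u.1, hu, v.1, b, d, h6, ?_, ?_⟩
            · intro hd
              have h9 := h7 hd
              rcases ReflTransGen.cases_head ht with h10 | ⟨c, h10, _⟩
              · exact (congrArg Prod.fst h10).symm
              · have h11 : m + v.2.1 ≤ m + (u.2.2 + 1) := h10.1
                omega
            · intro hd
              have h9 := h8 hd
              have h10 : v.2.1 = u.2.2 := by omega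
              rw [h10] at ht
              have ht' : ReflTransGen (Fr strict M (frz M ψ w) (m + u.2.2 + 1))
                  (v.1, m + u.2.2) (t, m + u.2.2 + 2) := ht
              obtain ⟨s, hs1, hs2⟩ := FrS.decomp ht' (by simp)
              exact ⟨s, hs1, hs2⟩
          exact hgoal

theorem tab_iff {w : List A} {m N : ℕ} {p q : M.Q} :
    (p, q) ∈ Tab strict M (frz M ψ w) (m + N) ↔
      ReflTransGen (GS strict M ψ w m N) (p, N, N) (q, N + 1, N) :=
  ⟨fun h => tab_complete le_rfl le_rfl h, tab_sound⟩

theorem ent_iff (hψ : ∀ q a q' b d, (q', b, d) ∈ M.δ q (.sym (M.inp a)) → b = ψ a)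
    {w : List A} {m N : ℕ} {q' : M.Q} : Ent strict M ψ w (m + N) q' ↔
      ∃ q, Ent strict M ψ w m q ∧
        ReflTransGen (GS strict M ψ w m N) (q, 1, 0) (q', N + 1, N) := by
  constructor
  · exact ent_complete hψ N q' le_rfl
  · rintro ⟨q, hq, h⟩
    exact (ent_sound hψ hq _ h).2 q' ReflTransGen.refl

end Pool.Agent.TH588.LQ
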