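import Mathlib
import Pool.Agent.H630R2.LA.Upper

/-!
# Deterministic 1-limited automata that write one computed bit in each cell

The bit written in a new cell, and acceptance, are computed by programs of a two-way head on the
visited part of the tape.
-/

set_option autoImplicit false

namespace Pool.Agent.TH588.LQ

open Pool.Agent.H630R2.LA Pool.Agent.H630R2.LA.Cmd Relation

/-- A plan: the length `B` of the blocks, the first bit, the programs which compute the next bit
and the programs which decide acceptance (depending on the position in the block). -/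
structure Plan (A : Type) where
  B : ℕ
  hB : 2 ≤ B
  b0 : Bool
  main : Fin B → Cmd (Sym (WS A))
  fin : Fin B → Cmd (Sym (WS A))

namespace Plan

variable {A : Type} (P : Plan A)

theorem pos : 0 < P.B := by have := P.hB; omega

/-- The index in its block. -/
def ix (i : ℕ) : Fin P.B := ⟨i % P.B, Nat.mod_lt _ P.pos⟩

/-- The tape is annotated in the cells `1..t`. -/
def Ann (bt : ℕ → Fin P.B → Prop) (w : List A) (τ : ℕ → Sym (WS A)) (t : ℕ) : Prop :=
  τ 0 = .lm ∧ ∀ i < t, ∃ a b, w[i]? = some a ∧ τ (i + 1) = .sym (.mark a b) ∧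
    (b = true ↔ bt ((i / P.B) * P.B) (P.ix i))

/-- The program for the next bit, started one cell further left. -/
def next (k : Fin P.B) : Cmd (Sym (WS A)) := mvs true 1 (P.main k)

/-- The states of the deterministic machine. -/
def QS : Type :=
  (Fin P.B × Bool) ⊕ ((Σ k : Fin P.B, (P.next k).St) ⊕ ((Σ k : Fin P.B, (P.fin k).St) ⊕ Bool))

/-- The head is on an unvisited cell with index `k` in its block, whose bit is `b`. -/
def wrQ (k : Fin P.B) (b : Bool) : P.QS := Sum.inl (k, b)

def nxQ (k : Fin P.B) (s : (P.next k).St) : P.QS := Sum.inr (Sum.inl ⟨k, s⟩)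

def fiQ (k : Fin P.B) (s : (P.fin k).St) : P.QS := Sum.inr (Sum.inr (Sum.inl ⟨k, s⟩))

def enQ (b : Bool) : P.QS := Sum.inr (Sum.inr (Sum.inr b))

/-- The moves of the deterministic machine. -/
def tr (q : P.QS) (σ : Sym (WS A)) : Option (P.QS × WS A × Bool) :=
  match q with
  | Sum.inl (k, b) => match σ with
    | .sym (.raw a) => some (Sum.elim (P.nxQ (P.ix (k.val + 1)))
        (P.wrQ (P.ix (k.val + 1))) (P.next (P.ix (k.val + 1))).entry, .mark a b, false)
    | .rm => some (Sum.elim (P.fiQ k) P.enQ (P.fin k).entry, .dum, false)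
    | _ => none
  | Sum.inr (Sum.inl ⟨k, s⟩) => some (Sum.elim (P.nxQ k) (P.wrQ k)
        ((P.next k).next s σ), keep σ, (P.next k).dir s σ)
  | Sum.inr (Sum.inr (Sum.inl ⟨k, s⟩)) => some (Sum.elim (P.fiQ k) P.enQ
        ((P.fin k).next s σ), keep σ, (P.fin k).dir s σ)
  | Sum.inr (Sum.inr (Sum.inr b)) => match b, σ with
    | true, .rm => some (P.enQ true, .dum, true)
    | _, _ => none

theorem finite_QS : Finite P.QS := by
  unfold QS
  infer_instance

/-- The deterministic machine. -/
def mach [Finite A] : LimAut A where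
  Q := P.QS
  W := WS A
  finQ := P.finite_QS
  finW := finite_WS A
  inp := WS.raw
  inp_inj := by
    intro a b hab
    cases hab
    rfl
  δ := fun q σ => {x | P.tr q σ = some x}
  q0 := P.wrQ (P.ix 0) P.b0
  F := {P.enQ true}

variable [Finite A]

theorem mach_det : P.mach.Deterministic := by
  intro q σ x hx y hy
  have h1 : P.tr q σ = some x := hx
  have h2 : P.tr q σ = some y := hy
  rw [h1] at h2
  exact Option.some.inj h2

variable {P} {strict : Prop}

theorem impl_next (k : Fin P.B) : Impl strict P.mach (P.next k) (P.nxQ k) (P.wrQ k) := by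
  intro s σ
  exact ⟨keep σ, rfl, fun _ => rewrite_keep σ⟩

theorem impl_fin (k : Fin P.B) : Impl strict P.mach (P.fin k) (P.fiQ k) P.enQ := by
  intro s σ
  exact ⟨keep σ, rfl, fun _ => rewrite_keep σ⟩

/-- The main loop. -/
theorem loop (bt : ℕ → Fin P.B → Prop) (w : List A) (h0 : P.b0 = true ↔ bt 0 (P.ix 0))
    (hmain : ∀ τ t, t ≤ w.length → P.Ann bt w τ t →
      Decides τ t (P.main (P.ix t)) t (t + 1) (bt ((t / P.B) * P.B) (P.ix t)))
    (t : ℕ) (ht : t ≤ w.length) :
    ∃ (τ : ℕ → Sym (WS A)) (S : Set ℕ) (b : Bool), P.Ann bt w τ t ∧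
      (∀ i, t < i → τ i = initTape P.mach w i) ∧
      (∀ i, 1 ≤ i → (i ∈ S ↔ i ≤ t)) ∧
      (b = true ↔ bt ((t / P.B) * P.B) (P.ix t)) ∧
      ReflTransGen (Step strict w.length) (init P.mach w)
        ⟨P.wrQ (P.ix t) b, t + 1, τ, S⟩ := by
  induction t with
  | zero =>
    refine ⟨initTape P.mach w, ∅, P.b0, ⟨rfl, ?_⟩, fun _ _ => rfl,
      ?_, ?_, ReflTransGen.refl⟩
    · intro i hi; exact absurd hi (Nat.not_lt_zero _)
    · intro i hi; simp; omega
    · rw [Nat.zero_div, Nat.zero_mul]
      exact h0
  | succ t ih =>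
    obtain ⟨τ, S, b, hA, hτ, hS, hb, hreach⟩ := ih (by omega)
    have hlt : t < w.length := by omega
    have hwt : w[t]? = some w[t] := List.getElem?_eq_getElem hlt
    have hcell : τ (t + 1) = .sym (.raw w[t]) := by
      rw [hτ (t + 1) (by omega)]
      simp only [initTape, hwt]
      rfl
    set τ' : ℕ → Sym (WS A) := Function.update τ (t + 1) (.sym (.mark w[t] b)) with hτ'
    have hagree : ∀ i, i ≤ t → τ' i = τ i := by
      intro i hi
      rw [hτ', Function.update_of_ne]
      omega
    have hnew : τ' (t + 1) = .sym (.mark w[t] b) := by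
      rw [hτ', Function.update_self]
    have hA' : P.Ann bt w τ' (t + 1) := by
      refine ⟨by rw [hagree 0 (by omega)]; exact hA.1, ?_⟩
      intro i hi
      rcases Nat.lt_or_ge i t with h1 | h1
      · rw [hagree (i + 1) (by omega)]
        exact hA.2 i h1
      · have : i = t := by omega
        subst this
        exact ⟨w[i], b, hwt, hnew, hb⟩
    have hnot : t + 1 ∉ S := by
      intro h
      have := (hS (t + 1) (by omega)).1 h
      omega
    have hS1 : ∀ i, 1 ≤ i → (i ∈ insert (t + 1) S ↔ i ≤ t + 1) := by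
      intro i hi
      rw [Set.mem_insert_iff, hS i hi]
      omega
    have hk' : P.ix ((P.ix t).val + 1) = P.ix (t + 1) := by
      apply Fin.ext
      show (t % P.B + 1) % P.B = (t + 1) % P.B
      rw [Nat.mod_add_mod]
    have hstep : Step strict w.length
        (⟨P.wrQ (P.ix t) b, t + 1, τ, S⟩ : Cfg P.mach)
        ⟨Sum.elim (P.nxQ (P.ix (t + 1))) (P.wrQ (P.ix (t + 1)))
          (P.next (P.ix (t + 1))).entry, t, τ', insert (t + 1) S⟩ := by
      refine ⟨by show t + 1 ≤ w.length + 1; omega, _, .mark w[t] b, false, ?_,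
        fun _ h => absurd h hnot, rfl, fun h => absurd h hnot, ?_, rfl, by simp, by simp⟩
      · show P.tr (P.wrQ (P.ix t) b) (τ (t + 1)) = some _
        rw [hcell]
        simp only [tr, wrQ]
        rw [hk']
        rfl
      · intro _
        show τ' = Function.update τ (t + 1) ((τ (t + 1)).rewrite (.mark w[t] b))
        rw [hcell]
        rfl
    obtain ⟨b', hrun, hb'⟩ := hmain τ' (t + 1) ht hA'
    have hrun' : Run τ' (t + 1) (P.next (P.ix (t + 1))) t b' (t + 1 + 1) :=
      run_mvs_right (n := 1) (by omega) hrun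
    have hpath := Impl.run (strict := strict) (M := P.mach) hrun' _ _
      (impl_next (P.ix (t + 1)))
    obtain ⟨S', hS', hlift⟩ := lift (n := w.length) (by omega) hA'.1 hpath _ hS1
    refine ⟨τ', S', b', hA', ?_, hS', hb', (hreach.tail hstep).trans hlift⟩
    intro i hi
    rw [hτ', Function.update_of_ne (by omega)]
    exact hτ i (by omega)

/-- The language of the deterministic machine. -/
theorem mem_mach_language (bt : ℕ → Fin P.B → Prop) (w : List A) (acc : Prop)
    (h0 : P.b0 = true ↔ bt 0 (P.ix 0))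
    (hmain : ∀ τ t, t ≤ w.length → P.Ann bt w τ t →
      Decides τ t (P.main (P.ix t)) t (t + 1) (bt ((t / P.B) * P.B) (P.ix t)))
    (hfin : ∀ τ, P.Ann bt w τ w.length →
      Decides τ (w.length + 1) (P.fin (P.ix w.length)) w.length (w.length + 1) acc) :
    w ∈ P.mach.language strict ↔ acc := by
  obtain ⟨τ, S, b, hA, hτ, hS, hb, hreach⟩ := loop (strict := strict) bt w h0 hmain w.length le_rfl
  have hcell : τ (w.length + 1) = .rm := by
    rw [hτ (w.length + 1) (by omega)]
    simp only [initTape, List.getElem?_eq_none (le_refl w.length)]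
    rfl
  have hnot : w.length + 1 ∉ S := by
    intro h
    have := (hS (w.length + 1) (by omega)).1 h
    omega
  have hS1 : ∀ i, 1 ≤ i → (i ∈ insert (w.length + 1) S ↔ i ≤ w.length + 1) := by
    intro i hi
    rw [Set.mem_insert_iff, hS i hi]
    omega
  have hstep : Step strict w.length
      (⟨P.wrQ (P.ix w.length) b, w.length + 1, τ, S⟩ : Cfg P.mach)
      ⟨Sum.elim (P.fiQ (P.ix w.length)) P.enQ
        (P.fin (P.ix w.length)).entry, w.length, τ, insert (w.length + 1) S⟩ := by
    refine ⟨le_rfl, _, .dum, false, ?_, fun _ h => absurd h hnot, rfl,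
      fun h => absurd h hnot, ?_, rfl, by simp, by simp⟩
    · show P.tr (P.wrQ (P.ix w.length) b) (τ (w.length + 1)) = some _
      rw [hcell]
      rfl
    · intro _
      show τ = Function.update τ (w.length + 1) ((τ (w.length + 1)).rewrite .dum)
      funext i
      by_cases hi : i = w.length + 1
      · subst hi
        rw [Function.update_self, hcell]
        rfl
      · rw [Function.update_of_ne hi]
  obtain ⟨b', hrun, hb'⟩ := hfin τ hA
  have hpath := Impl.run (strict := strict) (M := P.mach) hrun _ _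
    (impl_fin (P.ix w.length))
  obtain ⟨S', hS', hlift⟩ := lift (n := w.length) le_rfl hA.1 hpath _ hS1
  have hall := (hreach.tail hstep).trans hlift
  rw [← hb']
  cases b'
  · simp only [Bool.false_eq_true, iff_false]
    refine not_mem_of_stuck P.mach_det hall ?_ ?_
    · rintro c' ⟨_, q, b, d, hδ, _⟩
      have : P.tr (P.enQ false) (τ (w.length + 1)) = some (q, b, d) := hδ
      simp [tr, enQ] at this
    · show w.length + 1 ≠ w.length + 2
      omega
  · simp only [iff_true]
    refine ⟨⟨P.enQ true, w.length + 2, τ, insert (w.length + 1) S'⟩,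
      hall.tail ?_, rfl, rfl⟩
    have hin : w.length + 1 ∈ S' := (hS' _ (by omega)).2 le_rfl
    refine ⟨le_rfl, P.enQ true, .dum, true, ?_, ?_, rfl, fun _ => rfl,
      fun h => absurd hin h, rfl, fun _ => rfl, fun h => absurd h (by simp)⟩
    · show P.tr (P.enQ true) (τ (w.length + 1)) = some _
      rw [hcell]
      rfl
    · intro _ _
      show (τ (w.length + 1)).rewrite .dum = τ (w.length + 1)
      rw [hcell]
      rfl

omit [Finite A] in
/-- The number of states of the machine. -/
theorem card_QS_le {Z : ℕ} (hZ : 1 ≤ Z) (h1 : ∀ k, (P.main k).cnt + 1 ≤ Z)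
    (h2 : ∀ k, (P.fin k).cnt ≤ Z) : Nat.card P.QS ≤ 6 * (P.B * Z) := by
  have hBpos := P.pos
  have e : Nat.card P.QS = P.B * 2 +
      ((∑ k : Fin P.B, (P.next k).cnt) + ((∑ k : Fin P.B, (P.fin k).cnt) + 2)) := by
    unfold QS
    rw [Nat.card_sum, Nat.card_sum, Nat.card_sum, Nat.card_prod, Nat.card_sigma, Nat.card_sigma]
    simp only [card_St, Nat.card_eq_fintype_card, Fintype.card_fin, Fintype.card_bool]
  have s1 : ∑ k : Fin P.B, (P.next k).cnt ≤ P.B * Z := by
    have : ∑ k : Fin P.B, (P.next k).cnt ≤ ∑ _k : Fin P.B, Z := by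
      apply Finset.sum_le_sum
      intro k _
      have := h1 k
      simp only [next, cnt_mvs]
      omega
    refine this.trans ?_
    simp
  have s2 : ∑ k : Fin P.B, (P.fin k).cnt ≤ P.B * Z := by
    have : ∑ k : Fin P.B, (P.fin k).cnt ≤ ∑ _k : Fin P.B, Z := by
      apply Finset.sum_le_sum
      intro k _
      exact h2 k
    refine this.trans ?_
    simp
  have hBZ : P.B ≤ P.B * Z := Nat.le_mul_of_pos_right _ (by omega)
  omega

/-- The size of the machine. -/
theorem size_mach_le {X : ℕ} (hX : 1 ≤ X) (hq : Nat.card P.QS ≤ 6 * X) :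
    P.mach.size ≤ 144 * (X * (Nat.card A + 1)) := by
  have h3 : P.mach.numTrans ≤ Nat.card P.QS * (Nat.card (WS A) + 2) := numTrans_le _ P.mach_det
  have h4 := card_WS A
  have hsize : P.mach.size = Nat.card P.QS + Nat.card A +
      (Nat.card (WS A) + 2) + 5 * P.mach.numTrans + 1 +
      ({P.enQ true} : Set P.QS).ncard := rfl
  rw [hsize, Set.ncard_singleton, h4]
  rw [h4] at h3
  generalize P.mach.numTrans = T at *
  generalize Nat.card P.QS = q at *
  generalize Nat.card A = a at *
  have h5 : q * (3 * a + 1 + 2) = 3 * (q * (a + 1)) := by ring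
  rw [h5] at h3
  have h6 : q * (a + 1) ≤ 6 * X * (a + 1) := Nat.mul_le_mul_right _ hq
  have h7 : 6 * X * (a + 1) = 6 * (X * (a + 1)) := by ring
  have h8 : a + 1 ≤ X * (a + 1) := Nat.le_mul_of_pos_left _ hX
  have h9 : X ≤ X * (a + 1) := Nat.le_mul_of_pos_right _ (by omega)
  omega

end Plan

end Pool.Agent.TH588.LQ
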