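import Mathlib
import Pool.Agent.H630R2.LA.Reach

/-!
# Savitch's procedure for a finite relation whose pairs are decided by programs
-/

set_option autoImplicit false

namespace Pool.Agent.TH588.LQ

open Pool.Agent.H630R2.LA Pool.Agent.H630R2.LA.Cmd Relation

section paths

variable {V : Type}

/-- There is a path of length exactly `n`. -/
def itr (r : V → V → Prop) : ℕ → V → V → Prop
  | 0, u, v => u = v
  | n + 1, u, v => ∃ m, r u m ∧ itr r n m v

/-- There is a path of length at most `2 ^ k`. -/
def pw (r : V → V → Prop) : ℕ → V → V → Prop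
  | 0, u, v => u = v ∨ r u v
  | k + 1, u, v => ∃ m, pw r k u m ∧ pw r k m v

theorem itr_add {r : V → V → Prop} {a b : ℕ} {u v : V} :
    itr r (a + b) u v ↔ ∃ m, itr r a u m ∧ itr r b m v := by
  induction a generalizing u with
  | zero => simp [itr]
  | succ a ih =>
    have : a + 1 + b = (a + b) + 1 := by omega
    rw [this]
    simp only [itr]
    constructor
    · rintro ⟨m, h1, h2⟩
      obtain ⟨m', h3, h4⟩ := ih.1 h2
      exact ⟨m', ⟨m, h1, h3⟩, h4⟩
    · rintro ⟨m', ⟨m, h1, h3⟩, h4⟩
      exact ⟨m, h1, ih.2 ⟨m', h3, h4⟩⟩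

theorem pw_refl {r : V → V → Prop} (k : ℕ) (u : V) : pw r k u u := by
  induction k with
  | zero => exact Or.inl rfl
  | succ k ih => exact ⟨u, ih, ih⟩

theorem pw_of_itr {r : V → V → Prop} (k : ℕ) : ∀ (n : ℕ) (u v : V), n ≤ 2 ^ k → itr r n u v →
    pw r k u v := by
  induction k with
  | zero =>
    intro n u v hn h
    rcases Nat.eq_zero_or_pos n with h0 | h0
    · subst h0
      exact Or.inl h
    · have h1 : n = 1 := by simp at hn; omega
      subst h1
      obtain ⟨m, h2, h3⟩ := h
      have h4 : m = v := h3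
      subst h4
      exact Or.inr h2
  | succ k ih =>
    intro n u v hn h
    by_cases h0 : n ≤ 2 ^ k
    · exact ⟨v, ih n u v h0 h, pw_refl k v⟩
    · have h1 : n = 2 ^ k + (n - 2 ^ k) := by omega
      rw [h1] at h
      obtain ⟨m, h2, h3⟩ := itr_add.1 h
      have h4 : 2 ^ (k + 1) = 2 ^ k + 2 ^ k := by ring
      exact ⟨m, ih _ _ _ le_rfl h2, ih _ _ _ (by omega) h3⟩

theorem reflTransGen_of_pw {r : V → V → Prop} (k : ℕ) : ∀ (u v : V), pw r k u v →
    ReflTransGen r u v := by
  induction k with
  | zero =>
    rintro u v (h | h)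
    · subst h; exact ReflTransGen.refl
    · exact ReflTransGen.single h
  | succ k ih =>
    rintro u v ⟨m, h1, h2⟩
    exact (ih _ _ h1).trans (ih _ _ h2)

theorem exists_itr {r : V → V → Prop} {u v : V} (h : ReflTransGen r u v) :
    ∃ n, itr r n u v := by
  induction h using ReflTransGen.head_induction_on with
  | refl => exact ⟨0, rfl⟩
  | head h1 _ ih =>
    obtain ⟨n, hn⟩ := ih
    exact ⟨n + 1, _, h1, hn⟩

theorem exists_seq {r : V → V → Prop} {n : ℕ} : ∀ {u v : V}, itr r n u v →
    ∃ x : ℕ → V, x 0 = u ∧ x n = v ∧ ∀ i < n, r (x i) (x (i + 1)) := by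
  induction n with
  | zero =>
    intro u v h
    exact ⟨fun _ => u, rfl, h, fun i hi => absurd hi (Nat.not_lt_zero i)⟩
  | succ n ih =>
    rintro u v ⟨m, h1, h2⟩
    obtain ⟨x, hx0, hxn, hx⟩ := ih h2
    refine ⟨fun i => if i = 0 then u else x (i - 1), by simp, by simp [hxn], ?_⟩
    intro i hi
    rcases Nat.eq_zero_or_pos i with h0 | h0
    · subst h0
      simp [hx0, h1]
    · have h3 : i ≠ 0 := by omega
      simp only [h3, if_false, Nat.add_eq_zero_iff, Nat.one_ne_zero, and_false]
      have h4 : i + 1 - 1 = (i - 1) + 1 := by omega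
      rw [h4]
      exact hx (i - 1) (by omega)

theorem itr_of_seq {r : V → V → Prop} {x : ℕ → V} (d : ℕ) : ∀ a, (∀ i, a ≤ i → i < a + d →
    r (x i) (x (i + 1))) → itr r d (x a) (x (a + d)) := by
  induction d with
  | zero => intro a _; rfl
  | succ d ih =>
    intro a h
    refine ⟨x (a + 1), h a le_rfl (by omega), ?_⟩
    have h1 : a + (d + 1) = a + 1 + d := by omega
    rw [h1]
    exact ih (a + 1) (fun i h2 h3 => h i (by omega) (by omega))

/-- A path can be shortened to length less than the number of vertices. -/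
theorem exists_short [Finite V] {r : V → V → Prop} {u v : V} (h : ReflTransGen r u v) :
    ∃ n ≤ Nat.card V, itr r n u v := by
  classical
  have hex := exists_itr h
  refine ⟨Nat.find hex, ?_, Nat.find_spec hex⟩
  by_contra hlt
  rw [not_le] at hlt
  obtain ⟨x, hx0, hxn, hx⟩ := exists_seq (Nat.find_spec hex)
  set n := Nat.find hex with hn
  have hni : ¬ Function.Injective (fun i : Fin (n + 1) => x i.val) := by
    intro hinj
    have h1 := Nat.card_le_card_of_injective _ hinj
    rw [Nat.card_eq_fintype_card, Fintype.card_fin] at h1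
    omega
  rw [Function.Injective] at hni
  push Not at hni
  obtain ⟨i, j, hij, hne⟩ := hni
  have key : ∀ a b : ℕ, a < b → b ≤ n → x a = x b → False := by
    intro a b hab hb hxab
    have h1 : itr r a (x 0) (x (0 + a)) := itr_of_seq a 0 (fun i _ h3 => hx i (by omega))
    have h2 : itr r (n - b) (x b) (x (b + (n - b))) :=
      itr_of_seq (n - b) b (fun i _ h3 => hx i (by omega))
    have h3 : b + (n - b) = n := by omega
    rw [h3, hxn, ← hxab] at h2
    rw [hx0, Nat.zero_add] at h1
    have h4 : itr r (a + (n - b)) u v := itr_add.2 ⟨_, h1, h2⟩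
    have h5 : n ≤ a + (n - b) := Nat.find_min' hex h4
    omega
  have hi := i.isLt
  have hj := j.isLt
  rcases Nat.lt_trichotomy i.val j.val with h1 | h1 | h1
  · exact key _ _ h1 (by omega) hij
  · exact hne (Fin.ext h1)
  · exact key _ _ h1 (by omega) hij.symm

theorem pw_iff [Finite V] {r : V → V → Prop} {k : ℕ} (hk : Nat.card V ≤ 2 ^ k) {u v : V} :
    pw r k u v ↔ ReflTransGen r u v := by
  constructor
  · exact reflTransGen_of_pw k u v
  · intro h
    obtain ⟨n, hn, h1⟩ := exists_short h
    exact pw_of_itr k n u v (hn.trans hk) h1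

end paths

section savitch

variable {S V : Type} [DecidableEq V]

/-- Savitch's procedure. -/
def sav (l : List V) (ed : V → V → Cmd S) : ℕ → V → V → Cmd S
  | 0, u, v => if u = v then ret true else ed u v
  | k + 1, u, v => orL l (fun m => ite (sav l ed k u m) (sav l ed k m v) (ret false))

theorem decides_sav {l : List V} (hl : ∀ m, m ∈ l) {ed : V → V → Cmd S} {r : V → V → Prop}
    {τ : ℕ → S} {hi x : ℕ} (he : ∀ u v, Decides τ hi (ed u v) x x (r u v)) (k : ℕ) :
    ∀ u v, Decides τ hi (sav l ed k u v) x x (pw r k u v) := by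
  induction k with
  | zero =>
    intro u v
    by_cases h : u = v
    · simp only [sav, if_pos h]
      exact (decides_ret _ _ _ _).congr (by simp [pw, h])
    · simp only [sav, if_neg h]
      exact (he u v).congr (by simp [pw, h])
  | succ k ih =>
    intro u v
    simp only [sav]
    have key : ∀ m, Decides τ hi (ite (sav l ed k u m) (sav l ed k m v) (ret false)) x x
        (pw r k u m ∧ pw r k m v) := by
      intro m
      refine (decides_ite (χ := False) (ψ := pw r k m v) (ih u m) (fun _ => ih m v)
        (fun _ => (decides_ret _ _ _ _).congr (by simp))).congr (by tauto)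
    refine (decides_orL l _ _ key).congr ?_
    constructor
    · rintro ⟨m, _, h1⟩; exact ⟨m, h1⟩
    · rintro ⟨m, h1⟩; exact ⟨m, hl m, h1⟩

theorem cnt_sav {l : List V} {ed : V → V → Cmd S} {c : ℕ} (hc : ∀ u v, (ed u v).cnt ≤ c) (k : ℕ) :
    ∀ u v, (sav l ed k u v).cnt ≤ (2 * l.length) ^ k * c := by
  induction k with
  | zero =>
    intro u v
    by_cases h : u = v
    · simp only [sav, if_pos h, cnt]
      exact Nat.zero_le _
    · simp only [sav, if_neg h, pow_zero, Nat.one_mul]
      exact hc u v
  | succ k ih =>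
    intro u v
    simp only [sav]
    refine (cnt_orL l _ (2 * ((2 * l.length) ^ k * c)) ?_).trans ?_
    · intro m
      have h1 := ih u m
      have h2 := ih m v
      simp only [cnt]
      omega
    · rw [pow_succ]
      apply le_of_eq
      ring

end savitch

end Pool.Agent.TH588.LQ
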