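import Mathlib
import Pool.Agent.TH588.LQ.Sav
import Pool.Agent.TH588.LQ.Graph
import Pool.Agent.TH588.LQ.Mach

/-!
# The programs of the deterministic simulation
-/

set_option autoImplicit false

namespace Pool.Agent.TH588.LQ

open Pool.Agent.H630R2.LA Pool.Agent.H630R2.LA.Cmd Relation

variable {A : Type} (strict : Prop) (M : LimAut A) (ψ : A → M.W) {s : ℕ} (e : M.Q ≃ Fin s)

/-- The length of the blocks. -/
def bl (s : ℕ) : ℕ := s * s + s

/-- The bits that are stored in a block: the table and the set of entering states. -/
abbrev Bits (M : LimAut A) : Type := (M.Q × M.Q) ⊕ M.Q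

/-- The numbering of the bits. -/
def cod : Bits M ≃ Fin (bl s) :=
  (Equiv.sumCongr ((Equiv.prodCongr e e).trans finProdFinEquiv) e).trans finSumFinEquiv

/-- The value of a bit after `m` cells. -/
def btv (w : List A) (m : ℕ) : Bits M → Prop
  | Sum.inl x => x ∈ Tab strict M (frz M ψ w) m
  | Sum.inr q => Ent strict M ψ w m q

open Classical in
/-- The initial bits. -/
noncomputable def ini : Bits M → Bool
  | Sum.inl x => decide (x ∈ ext strict M ∅ .lm)
  | Sum.inr q => decide (q = M.q0)

theorem ini_iff (w : List A) (x : Bits M) : ini strict M x = true ↔ btv strict M ψ w 0 x := by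
  rcases x with x | q
  · simp only [ini, btv, decide_eq_true_eq]
    rw [Tab_zero]
    rfl
  · simp only [ini, btv, decide_eq_true_eq]
    exact (ent_zero w q).symm

/-- The vertices of the graph. -/
abbrev Vx (M : LimAut A) (s : ℕ) : Type := M.Q × Fin (2 * bl s + 2) × Fin (2 * bl s + 2)

/-- A vertex as a triple. -/
def val (v : Vx M s) : M.Q × ℕ × ℕ := (v.1, v.2.1.val, v.2.2.val)

/-- The vertex with given coordinates. -/
def mkv (q : M.Q) (i f : ℕ) : Vx M s :=
  (q, ⟨i % (2 * bl s + 2), Nat.mod_lt _ (by omega)⟩, ⟨f % (2 * bl s + 2), Nat.mod_lt _ (by omega)⟩)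

theorem val_mkv (q : M.Q) {i f : ℕ} (hi : i < 2 * bl s + 2) (hf : f < 2 * bl s + 2) :
    val M (mkv M (s := s) q i f) = (q, i, f) := by
  simp only [val, mkv, Nat.mod_eq_of_lt hi, Nat.mod_eq_of_lt hf]

theorem val_inj : Function.Injective (val M : Vx M s → M.Q × ℕ × ℕ) := by
  rintro ⟨q, i, f⟩ ⟨q', i', f'⟩ h
  simp only [val, Prod.mk.injEq] at h
  obtain ⟨rfl, h1, h2⟩ := h
  rw [Fin.ext h1, Fin.ext h2]

instance : Finite (Vx M s) := by
  have := M.finQ
  infer_instance

/-- All vertices. -/
noncomputable def lV : List (Vx M s) := by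
  have := Fintype.ofFinite (Vx M s)
  exact (Finset.univ : Finset (Vx M s)).toList

theorem mem_lV (v : Vx M s) : v ∈ lV M (s := s) := by
  simp [lV]

theorem length_lV : (lV M (s := s)).length = Nat.card (Vx M s) := by
  let _ := Fintype.ofFinite (Vx M s)
  rw [Nat.card_eq_fintype_card, ← Finset.card_univ, ← Finset.length_toList]
  rfl

/-- All states. -/
noncomputable def lQ : List M.Q := by
  have := M.finQ
  have := Fintype.ofFinite M.Q
  exact (Finset.univ : Finset M.Q).toList

theorem mem_lQ (q : M.Q) : q ∈ lQ M := by
  simp [lQ]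

theorem length_lQ : (lQ M).length = Nat.card M.Q := by
  have := M.finQ
  let _ := Fintype.ofFinite M.Q
  rw [Nat.card_eq_fintype_card, ← Finset.card_univ, ← Finset.length_toList]
  rfl

/-- Read a bit: from the tape (`src = true`), or the initial one. The head is on the first cell of
the block. -/
noncomputable def bitP (src : Bool) (x : Bits M) : Cmd (Sym (WS A)) :=
  if src = true then chk bitS (cod M e x).val else ret (ini strict M x)

open Classical in
/-- Decide one edge. `n'` is the number of letters, `fn` tells whether the right end-marker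
follows. The head is on the first cell of the block. -/
noncomputable def edP (src : Bool) (n' : ℕ) (fn : Bool) (u v : Vx M s) : Cmd (Sym (WS A)) :=
  if u.2.1.val = 0 then
    (if v.2.1.val = 1 ∧ v.2.2.val = u.2.2.val then bitP strict M e src (Sum.inl (u.1, v.1))
      else ret false)
  else if u.2.1.val ≤ n' then
    chk (fun σ => match σ with
      | .sym (.mark a _) => decide (EL strict M (.sym (ψ a)) (.sym (M.inp a)) (val M u) (val M v))
      | _ => false) (u.2.1.val - 1)
  else ret (decide (fn = true ∧ u.2.1.val = n' + 1 ∧ EL strict M .rm .rm (val M u) (val M v)))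

/-- The number of cells of the graph. -/
def nn (n' : ℕ) (fn : Bool) : ℕ := if fn = true then n' + 1 else n'

variable {strict M ψ e}

theorem decides_edP {w : List A} {τ : ℕ → Sym (WS A)} {hi m n' : ℕ} {src fn : Bool}
    (hbit : ∀ x, Decides τ hi (bitP strict M e src x) (m + 1) (m + 1) (btv strict M ψ w m x))
    (hL : ∀ i, i < n' → ∃ a b, w[m + i]? = some a ∧ τ (m + i + 1) = .sym (.mark a b))
    (hhi : m + n' ≤ hi) (hfn : fn = true → m + n' = w.length) (u v : Vx M s) :
    Decides τ hi (edP strict M ψ e src n' fn u v) (m + 1) (m + 1)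
      (GS strict M ψ w m (nn n' fn) (val M u) (val M v)) := by
  classical
  unfold edP
  by_cases h0 : u.2.1.val = 0
  · rw [if_pos h0]
    by_cases h1 : v.2.1.val = 1 ∧ v.2.2.val = u.2.2.val
    · rw [if_pos h1]
      refine (hbit _).congr ?_
      constructor
      · intro h
        exact Or.inl ⟨h0, h1.1, h1.2, h⟩
      · rintro (h | h)
        · exact h.2.2.2
        · have h2 : 1 ≤ u.2.1.val := h.1
          omega
    · rw [if_neg h1]
      refine (decides_ret _ _ _ _).congr ?_
      simp only [Bool.false_eq_true, false_iff]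
      rintro (h | h)
      · exact h1 ⟨h.2.1, h.2.2.1⟩
      · have h2 : 1 ≤ u.2.1.val := h.1
        omega
  · rw [if_neg h0]
    by_cases h1 : u.2.1.val ≤ n'
    · rw [if_pos h1]
      obtain ⟨a, b, ha, hτ⟩ := hL (u.2.1.val - 1) (by omega)
      have e1 : m + 1 + (u.2.1.val - 1) = m + (u.2.1.val - 1) + 1 := by omega
      have e2 : m + u.2.1.val = m + (u.2.1.val - 1) + 1 := by omega
      refine (decides_chk _ (by omega) (by omega)).congr ?_
      rw [e1, hτ]
      simp only [decide_eq_true_eq]
      have h3 : frz M ψ w (m + (val M u).2.1) = .sym (ψ a) := by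
        show frz M ψ w (m + u.2.1.val) = _
        rw [e2]
        simp only [frz, ha]
      have h4 : initTape M w (m + (val M u).2.1) = .sym (M.inp a) := by
        show initTape M w (m + u.2.1.val) = _
        rw [e2]
        simp only [initTape, ha]
      unfold GS
      rw [h3, h4]
      constructor
      · intro h
        refine Or.inr ⟨by show 1 ≤ u.2.1.val; omega, ?_, h⟩
        show u.2.1.val ≤ nn n' fn
        unfold nn
        split <;> omega
      · rintro (h | h)
        · exact absurd h.1 h0
        · exact h.2.2
    · rw [if_neg h1]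
      refine (decides_ret _ _ _ _).congr ?_
      simp only [decide_eq_true_eq]
      constructor
      · rintro ⟨hf, h2, h3⟩
        have hw := hfn hf
        have e2 : m + (val M u).2.1 = w.length + 1 := by
          show m + u.2.1.val = _
          omega
        have hnone : w[w.length]? = none := List.getElem?_eq_none le_rfl
        refine Or.inr ⟨by show 1 ≤ u.2.1.val; omega, ?_, ?_⟩
        · show u.2.1.val ≤ nn n' fn
          rw [nn, if_pos hf]
          omega
        · rw [e2]
          simp only [frz, initTape, hnone]
          exact h3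
      · rintro (h | ⟨h2, h3, h4⟩)
        · exact absurd h.1 h0
        · have h5 : u.2.1.val ≤ nn n' fn := h3
          unfold nn at h5
          have hf : fn = true := by
            by_contra hc
            rw [if_neg hc] at h5
            exact h1 h5
          rw [if_pos hf] at h5
          have hw := hfn hf
          have e2 : m + (val M u).2.1 = w.length + 1 := by
            show m + u.2.1.val = _
            omega
          have hnone : w[w.length]? = none := List.getElem?_eq_none le_rfl
          rw [e2] at h4
          simp only [frz, initTape, hnone] at h4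
          exact ⟨hf, by omega, h4⟩

theorem reach_val {w : List A} {m N : ℕ} (hN : N ≤ 2 * bl s) {u v : Vx M s} :
    ReflTransGen (fun u v : Vx M s => GS strict M ψ w m N (val M u) (val M v)) u v ↔
      ReflTransGen (GS strict M ψ w m N) (val M u) (val M v) := by
  constructor
  · intro h
    exact ReflTransGen.lift (val M) (fun _ _ h => h) _ _ h
  · intro h
    have key : ∀ x, ReflTransGen (GS strict M ψ w m N) (val M u) x → ∃ x' : Vx M s,
        val M x' = x ∧
        ReflTransGen (fun u v : Vx M s => GS strict M ψ w m N (val M u) (val M v)) u x' := by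
      intro x hx
      induction hx with
      | refl => exact ⟨u, rfl, ReflTransGen.refl⟩
      | tail _ hstep ih =>
        rename_i y z _
        obtain ⟨y', hy, hr⟩ := ih
        have hyf : y.2.2 < 2 * bl s + 2 := by rw [← hy]; exact y'.2.2.isLt
        have hz : z.2.1 < 2 * bl s + 2 ∧ z.2.2 < 2 * bl s + 2 := by
          rcases hstep with ⟨h1, h2, h3, _⟩ | ⟨h1, h2, h3⟩
          · exact ⟨by omega, by omega⟩
          · rcases h3 with ⟨h4, h5, d, _, h7, h8⟩ | ⟨h4, h5, b, d, _, h7, h8⟩
            · refine ⟨?_, by omega⟩
              cases d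
              · have := h8 rfl; omega
              · have := h7 rfl; omega
            · refine ⟨?_, by omega⟩
              cases d
              · have := h8 rfl; omega
              · have := h7 rfl; omega
        refine ⟨mkv M z.1 z.2.1 z.2.2, val_mkv M z.1 hz.1 hz.2, hr.tail ?_⟩
        show GS strict M ψ w m N (val M y') (val M (mkv M z.1 z.2.1 z.2.2))
        rw [hy, val_mkv M z.1 hz.1 hz.2]
        exact hstep
    obtain ⟨v', hv, hr⟩ := key _ h
    rw [← val_inj M hv]
    exact hr

open Classical in
/-- Reachability in the graph. -/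
noncomputable def rea (strict : Prop) (M : LimAut A) (ψ : A → M.W) (e : M.Q ≃ Fin s) (K : ℕ)
    (src : Bool) (n' : ℕ) (fn : Bool) (u v : Vx M s) : Cmd (Sym (WS A)) :=
  sav (lV M) (edP strict M ψ e src n' fn) K u v

theorem decides_rea {K : ℕ} (hK : Nat.card (Vx M s) ≤ 2 ^ K) {w : List A} {τ : ℕ → Sym (WS A)}
    {hi m n' : ℕ} {src fn : Bool}
    (hbit : ∀ x, Decides τ hi (bitP strict M e src x) (m + 1) (m + 1) (btv strict M ψ w m x))
    (hL : ∀ i, i < n' → ∃ a b, w[m + i]? = some a ∧ τ (m + i + 1) = .sym (.mark a b))
    (hhi : m + n' ≤ hi) (hfn : fn = true → m + n' = w.length) (hN : nn n' fn ≤ 2 * bl s)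
    (u v : Vx M s) :
    Decides τ hi (rea strict M ψ e K src n' fn u v) (m + 1) (m + 1)
      (ReflTransGen (GS strict M ψ w m (nn n' fn)) (val M u) (val M v)) := by
  classical
  unfold rea
  refine (decides_sav (mem_lV M) (decides_edP hbit hL hhi hfn) K u v).congr ?_
  rw [pw_iff hK]
  exact reach_val hN

end Pool.Agent.TH588.LQ
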