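import Mathlib
import Pool.Agent.TH588.LQ.Prog

/-!
# The deterministic simulation
-/

set_option autoImplicit false

namespace Pool.Agent.TH588.LQ

open Pool.Agent.H630R2.LA Pool.Agent.H630R2.LA.Cmd Relation

variable {A : Type} (strict : Prop) (M : LimAut A) (ψ : A → M.W) {s : ℕ} (e : M.Q ≃ Fin s)

/-- Can `q` be the first state after the cells of the graph? -/
noncomputable def enP (K : ℕ) (src : Bool) (n' : ℕ) (fn : Bool) (q : M.Q) : Cmd (Sym (WS A)) :=
  orL (lQ M) (fun q0 => ite (bitP strict M e src (Sum.inr q0))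
    (rea strict M ψ e K src n' fn (mkv M q0 1 0) (mkv M q (nn n' fn + 1) (nn n' fn))) (ret false))

/-- The next bit. -/
noncomputable def qry (K : ℕ) (k : Fin (bl s)) : Cmd (Sym (WS A)) :=
  match (cod M e).symm k with
  | Sum.inl x => rea strict M ψ e K true (bl s) false (mkv M x.1 (bl s) (bl s))
      (mkv M x.2 (bl s + 1) (bl s))
  | Sum.inr q => enP strict M ψ e K true (bl s) false q

open Classical in
/-- Acceptance. -/
noncomputable def acP (K : ℕ) (src : Bool) (n' : ℕ) : Cmd (Sym (WS A)) :=
  orL (lQ M) (fun f => if f ∈ M.F then enP strict M ψ e K src n' true f else ret false)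

theorem two_le_bl (hs : 1 ≤ s) : 2 ≤ bl s := by
  unfold bl
  nlinarith

/-- The plan of the simulation. -/
noncomputable def plan (hs : 1 ≤ s) (K : ℕ) : Plan A where
  B := bl s
  hB := two_le_bl hs
  b0 := ini strict M ((cod M e).symm ⟨0, by have := two_le_bl hs; omega⟩)
  main := fun k => mvs false k.val (ite (act (fun σ => some (isLm σ)) isLm)
    (mvs true k.val (ret (ini strict M ((cod M e).symm k))))
    (mvs false (bl s - 2) (thenRight (qry strict M ψ e K k) (bl s + k.val))))
  fin := fun k => mvs false k.val (ite (act (fun σ => some (isLm σ)) isLm)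
    (thenRight (acP strict M ψ e K false k.val) k.val)
    (mvs false (bl s - 2) (thenRight (acP strict M ψ e K true (bl s + k.val)) (bl s + k.val))))

/-- The meaning of the bits. -/
def btw (w : List A) (m : ℕ) (k : Fin (bl s)) : Prop := btv strict M ψ w m ((cod M e).symm k)

variable {strict M ψ e}

theorem decides_enP (hψ : ∀ q a q' b d, (q', b, d) ∈ M.δ q (.sym (M.inp a)) → b = ψ a)
    {K : ℕ} (hK : Nat.card (Vx M s) ≤ 2 ^ K) {w : List A} {τ : ℕ → Sym (WS A)}
    {hi m n' : ℕ} {src fn : Bool}
    (hbit : ∀ x, Decides τ hi (bitP strict M e src x) (m + 1) (m + 1) (btv strict M ψ w m x))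
    (hL : ∀ i, i < n' → ∃ a b, w[m + i]? = some a ∧ τ (m + i + 1) = .sym (.mark a b))
    (hhi : m + n' ≤ hi) (hfn : fn = true → m + n' = w.length) (hN : nn n' fn ≤ 2 * bl s)
    (q : M.Q) :
    Decides τ hi (enP strict M ψ e K src n' fn q) (m + 1) (m + 1)
      (Ent strict M ψ w (m + nn n' fn) q) := by
  unfold enP
  have key : ∀ q0, Decides τ hi (ite (bitP strict M e src (Sum.inr q0))
      (rea strict M ψ e K src n' fn (mkv M q0 1 0) (mkv M q (nn n' fn + 1) (nn n' fn)))
      (ret false)) (m + 1) (m + 1) (Ent strict M ψ w m q0 ∧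
        ReflTransGen (GS strict M ψ w m (nn n' fn)) (q0, 1, 0) (q, nn n' fn + 1, nn n' fn)) := by
    intro q0
    have h1 := decides_rea hK hbit hL hhi hfn hN (mkv M q0 1 0)
      (mkv M q (nn n' fn + 1) (nn n' fn))
    rw [val_mkv M q0 (by omega) (by omega), val_mkv M q (by omega) (by omega)] at h1
    exact (decides_ite (χ := False) (hbit (Sum.inr q0)) (fun _ => h1)
      (fun _ => (decides_ret _ _ _ _).congr (by simp))).congr (by simp [btv])
  refine (decides_orL _ _ _ key).congr ?_
  rw [ent_iff hψ]
  constructor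
  · rintro ⟨q0, _, h⟩; exact ⟨q0, h⟩
  · rintro ⟨q0, h⟩; exact ⟨q0, mem_lQ M q0, h⟩

theorem decides_qry (hψ : ∀ q a q' b d, (q', b, d) ∈ M.δ q (.sym (M.inp a)) → b = ψ a)
    {K : ℕ} (hK : Nat.card (Vx M s) ≤ 2 ^ K) {w : List A} {τ : ℕ → Sym (WS A)} {hi m : ℕ}
    (hbit : ∀ x, Decides τ hi (bitP strict M e true x) (m + 1) (m + 1) (btv strict M ψ w m x))
    (hL : ∀ i, i < bl s → ∃ a b, w[m + i]? = some a ∧ τ (m + i + 1) = .sym (.mark a b))
    (hhi : m + bl s ≤ hi) (k : Fin (bl s)) :
    Decides τ hi (qry strict M ψ e K k) (m + 1) (m + 1) (btw strict M ψ e w (m + bl s) k) := by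
  have hnn : nn (bl s) false = bl s := rfl
  unfold qry btw
  rcases (cod M e).symm k with ⟨p, q⟩ | q
  · have h1 := decides_rea (fn := false) hK hbit hL hhi (fun h => absurd h (by simp))
      (by rw [hnn]; omega) (mkv M p (bl s) (bl s)) (mkv M q (bl s + 1) (bl s))
    rw [val_mkv M p (by omega) (by omega), val_mkv M q (by omega) (by omega), hnn] at h1
    refine h1.congr ?_
    show _ ↔ (p, q) ∈ Tab strict M (frz M ψ w) (m + bl s)
    exact tab_iff.symm
  · have h1 := decides_enP (fn := false) hψ hK hbit hL hhi (fun h => absurd h (by simp))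
      (by rw [hnn]; omega) q
    rw [hnn] at h1
    exact h1

theorem decides_acP (hψ : ∀ q a q' b d, (q', b, d) ∈ M.δ q (.sym (M.inp a)) → b = ψ a)
    {K : ℕ} (hK : Nat.card (Vx M s) ≤ 2 ^ K) {w : List A} {τ : ℕ → Sym (WS A)}
    {hi m n' : ℕ} {src : Bool}
    (hbit : ∀ x, Decides τ hi (bitP strict M e src x) (m + 1) (m + 1) (btv strict M ψ w m x))
    (hL : ∀ i, i < n' → ∃ a b, w[m + i]? = some a ∧ τ (m + i + 1) = .sym (.mark a b))
    (hhi : m + n' ≤ hi) (hw : m + n' = w.length) (hN : n' + 1 ≤ 2 * bl s) :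
    Decides τ hi (acP strict M ψ e K src n') (m + 1) (m + 1) (w ∈ M.language strict) := by
  classical
  have hnn : nn n' true = n' + 1 := rfl
  unfold acP
  have key : ∀ f, Decides τ hi (if f ∈ M.F then enP strict M ψ e K src n' true f else ret false)
      (m + 1) (m + 1) (f ∈ M.F ∧ Ent strict M ψ w (w.length + 1) f) := by
    intro f
    by_cases hf : f ∈ M.F
    · rw [if_pos hf]
      have h1 := decides_enP (fn := true) hψ hK hbit hL hhi (fun _ => hw) (by rw [hnn]; exact hN) f
      have h2 : m + nn n' true = w.length + 1 := by rw [hnn]; omega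
      rw [h2] at h1
      exact h1.congr (by simp [hf])
    · rw [if_neg hf]
      exact (decides_ret _ _ _ _).congr (by simp [hf])
  refine (decides_orL _ _ _ key).congr ?_
  rw [mem_language_iff hψ]
  constructor
  · rintro ⟨f, _, h⟩; exact ⟨f, h⟩
  · rintro ⟨f, h⟩; exact ⟨f, mem_lQ M f, h⟩

/-- The annotation, in terms of `bl s`. -/
def An (strict : Prop) (M : LimAut A) (ψ : A → M.W) (e : M.Q ≃ Fin s) (w : List A)
    (τ : ℕ → Sym (WS A)) (t : ℕ) : Prop :=
  τ 0 = .lm ∧ ∀ i < t, ∃ a b, w[i]? = some a ∧ τ (i + 1) = .sym (.mark a b) ∧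
    (b = true ↔ ∀ k : Fin (bl s), k.val = i % bl s → btw strict M ψ e w ((i / bl s) * bl s) k)

theorem bit_tape {w : List A} {τ : ℕ → Sym (WS A)} {t hi j : ℕ}
    (hA : An strict M ψ e w τ t) (hj : j * bl s + bl s ≤ t) (ht : t ≤ hi) (x : Bits M) :
    Decides τ hi (bitP strict M e true x) (j * bl s + 1) (j * bl s + 1)
      (btv strict M ψ w (j * bl s) x) := by
  have hc := (cod M e x).isLt
  have h1 : bitP strict M e true x = chk bitS (cod M e x).val := by
    unfold bitP
    rw [if_pos rfl]
  rw [h1]
  refine (decides_chk _ (by omega) (by omega)).congr ?_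
  obtain ⟨a, b, _, hτ, hb⟩ := hA.2 (j * bl s + (cod M e x).val) (by omega)
  have h2 : j * bl s + 1 + (cod M e x).val = j * bl s + (cod M e x).val + 1 := by omega
  have h3 : (j * bl s + (cod M e x).val) % bl s = (cod M e x).val := by
    rw [Nat.mul_add_mod_self_right, Nat.mod_eq_of_lt hc]
  have h4 : (j * bl s + (cod M e x).val) / bl s = j := by
    rw [Nat.mul_comm, Nat.mul_add_div (by omega), Nat.div_eq_of_lt hc, Nat.add_zero]
  rw [h2, hτ]
  show b = true ↔ _
  rw [hb, h3, h4]
  constructor
  · intro h
    have h5 := h (cod M e x) rfl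
    unfold btw at h5
    rw [Equiv.symm_apply_apply] at h5
    exact h5
  · intro h k hk
    have : k = cod M e x := Fin.ext hk
    subst this
    unfold btw
    rw [Equiv.symm_apply_apply]
    exact h

theorem decides_main (hψ : ∀ q a q' b d, (q', b, d) ∈ M.δ q (.sym (M.inp a)) → b = ψ a)
    (hs : 1 ≤ s) {K : ℕ} (hK : Nat.card (Vx M s) ≤ 2 ^ K) {w : List A} {τ : ℕ → Sym (WS A)}
    {y hi j : ℕ} {k : Fin (bl s)} (hA : An strict M ψ e w τ y) (hy : y = j * bl s + k.val)
    (hhi : y ≤ hi) :
    Decides τ hi (mvs false k.val (ite (act (fun σ => some (isLm σ)) isLm)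
      (mvs true k.val (ret (ini strict M ((cod M e).symm k))))
      (mvs false (bl s - 2) (thenRight (qry strict M ψ e K k) (bl s + k.val))))) y (y + 1)
      (btw strict M ψ e w (j * bl s) k) := by
  have hB := two_le_bl hs
  have hk := k.isLt
  rw [hy]
  apply decides_mvs_left (by omega)
  rcases Nat.eq_zero_or_pos j with hj | hj
  · subst hj
    have hz : 0 * bl s = 0 := Nat.zero_mul _
    simp only [hz, Nat.zero_add]
    refine (decides_ite (φ := True) (ψ := btw strict M ψ e w 0 k) (χ := False)
      (decides_lm_true hA.1) (fun _ => ?_) (fun h => absurd trivial h)).congr (by tauto)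
    have h1 : k.val + 1 = 1 + k.val := by omega
    rw [h1]
    apply decides_mvs_right (by omega)
    exact (decides_ret _ _ _ _).congr (ini_iff strict M ψ w _)
  · obtain ⟨j', rfl⟩ : ∃ j', j = j' + 1 := ⟨j - 1, by omega⟩
    have hz : (j' + 1) * bl s = j' * bl s + bl s := by ring
    have hpos : (j' + 1) * bl s = (j' * bl s + bl s - 1) + 1 := by omega
    obtain ⟨a, b, ha, hτ, -⟩ := hA.2 (j' * bl s + bl s - 1) (by omega)
    refine (decides_ite (φ := False) (ψ := True) (χ := btw strict M ψ e w ((j' + 1) * bl s) k)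
      (y := j' * bl s + bl s - 1) ?_ (fun h => absurd h (by simp)) (fun _ => ?_)).congr (by tauto)
    · rw [hpos]
      exact decides_lm_false hτ (by omega)
    · have h1 : j' * bl s + bl s - 1 = j' * bl s + 1 + (bl s - 2) := by omega
      rw [h1]
      apply decides_mvs_left (by omega)
      have h2 : (j' + 1) * bl s + k.val + 1 = j' * bl s + 1 + (bl s + k.val) := by omega
      rw [h2]
      apply decides_thenRight _ (by omega)
      rw [hz]
      refine decides_qry hψ hK (fun x => bit_tape hA (by omega) hhi x) ?_ (by omega) k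
      intro i hi'
      obtain ⟨a', b', h3, h4, _⟩ := hA.2 (j' * bl s + i) (by omega)
      exact ⟨a', b', h3, h4⟩

theorem decides_fin (hψ : ∀ q a q' b d, (q', b, d) ∈ M.δ q (.sym (M.inp a)) → b = ψ a)
    (hs : 1 ≤ s) {K : ℕ} (hK : Nat.card (Vx M s) ≤ 2 ^ K) {w : List A} {τ : ℕ → Sym (WS A)}
    {hi j : ℕ} {k : Fin (bl s)} (hA : An strict M ψ e w τ w.length)
    (hy : w.length = j * bl s + k.val) (hhi : w.length ≤ hi) :
    Decides τ hi (mvs false k.val (ite (act (fun σ => some (isLm σ)) isLm)
      (thenRight (acP strict M ψ e K false k.val) k.val)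
      (mvs false (bl s - 2) (thenRight (acP strict M ψ e K true (bl s + k.val))
        (bl s + k.val))))) w.length (w.length + 1) (w ∈ M.language strict) := by
  have hB := two_le_bl hs
  have hk := k.isLt
  have hgoal : Decides τ hi (mvs false k.val (ite (act (fun σ => some (isLm σ)) isLm)
      (thenRight (acP strict M ψ e K false k.val) k.val)
      (mvs false (bl s - 2) (thenRight (acP strict M ψ e K true (bl s + k.val))
        (bl s + k.val))))) (j * bl s + k.val) (j * bl s + k.val + 1)
        (w ∈ M.language strict) := by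
    apply decides_mvs_left (by omega)
    rcases Nat.eq_zero_or_pos j with hj | hj
    · subst hj
      have hz : 0 * bl s = 0 := Nat.zero_mul _
      simp only [hz, Nat.zero_add] at hy ⊢
      refine (decides_ite (φ := True) (ψ := w ∈ M.language strict) (χ := False)
        (decides_lm_true hA.1) (fun _ => ?_) (fun h => absurd trivial h)).congr (by simp)
      have h1 : k.val + 1 = 1 + k.val := by omega
      rw [h1]
      apply decides_thenRight _ (by omega)
      have h2 := decides_acP (strict := strict) (src := false) (m := 0) (n' := k.val) (hi := hi) (τ := τ) (e := e)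
        hψ hK (w := w) ?_ ?_ (by omega) (by omega) (by omega)
      · exact h2
      · intro x
        have h3 : bitP strict M e false x = ret (ini strict M x) := by
          unfold bitP
          simp
        rw [h3]
        exact (decides_ret _ _ _ _).congr (ini_iff strict M ψ w x)
      · intro i hi'
        obtain ⟨a', b', h3, h4, _⟩ := hA.2 i (by omega)
        rw [Nat.zero_add]
        exact ⟨a', b', h3, h4⟩
    · obtain ⟨j', rfl⟩ : ∃ j', j = j' + 1 := ⟨j - 1, by omega⟩
      have hz : (j' + 1) * bl s = j' * bl s + bl s := by ring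
      have hpos : (j' + 1) * bl s = (j' * bl s + bl s - 1) + 1 := by omega
      obtain ⟨a, b, ha, hτ, -⟩ := hA.2 (j' * bl s + bl s - 1) (by omega)
      refine (decides_ite (φ := False) (ψ := True) (χ := w ∈ M.language strict)
        (y := j' * bl s + bl s - 1) ?_ (fun h => absurd h (by simp))
        (fun _ => ?_)).congr (by tauto)
      · rw [hpos]
        exact decides_lm_false hτ (by omega)
      · have h1 : j' * bl s + bl s - 1 = j' * bl s + 1 + (bl s - 2) := by omega
        rw [h1]
        apply decides_mvs_left (by omega)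
        have h2 : (j' + 1) * bl s + k.val + 1 = j' * bl s + 1 + (bl s + k.val) := by omega
        rw [h2]
        apply decides_thenRight _ (by omega)
        refine decides_acP hψ hK (fun x => bit_tape hA (by omega) hhi x) ?_ (by omega)
          (by omega) (by omega)
        intro i hi'
        obtain ⟨a', b', h3, h4, _⟩ := hA.2 (j' * bl s + i) (by omega)
        exact ⟨a', b', h3, h4⟩
  rw [← hy] at hgoal
  exact hgoal

variable [Finite A]

/-- The deterministic machine has the same language. -/
theorem plan_language (hψ : ∀ q a q' b d, (q', b, d) ∈ M.δ q (.sym (M.inp a)) → b = ψ a)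
    (hs : 1 ≤ s) {K : ℕ} (hK : Nat.card (Vx M s) ≤ 2 ^ K) :
    (plan strict M ψ e hs K).mach.language strict = M.language strict := by
  ext w
  have hconv : ∀ τ t, (plan strict M ψ e hs K).Ann (btw strict M ψ e w) w τ t →
      An strict M ψ e w τ t := by
    rintro τ t ⟨h0, h1⟩
    refine ⟨h0, fun i hi => ?_⟩
    obtain ⟨a, b, h2, h3, h4⟩ := h1 i hi
    refine ⟨a, b, h2, h3, h4.trans ?_⟩
    constructor
    · intro h k hk
      have : (plan strict M ψ e hs K).ix i = k := Fin.ext hk.symm
      rw [this] at h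
      exact h
    · intro h
      exact h ((plan strict M ψ e hs K).ix i) rfl
  refine Plan.mem_mach_language (P := plan strict M ψ e hs K) (btw strict M ψ e w) w _ ?_ ?_ ?_
  · refine (ini_iff strict M ψ w _).trans ?_
    unfold btw
    have : (plan strict M ψ e hs K).ix 0 = ⟨0, (plan strict M ψ e hs K).pos⟩ :=
      Fin.ext (Nat.zero_mod _)
    rw [this]
    rfl
  · intro τ t _ hA
    exact decides_main hψ hs hK (hconv τ t hA)
      (by
        show t = t / bl s * bl s + t % bl s
        rw [Nat.mul_comm, Nat.div_add_mod]) le_rfl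
  · intro τ hA
    exact decides_fin hψ hs hK (hconv τ _ hA)
      (by
        show w.length = w.length / bl s * bl s + w.length % bl s
        rw [Nat.mul_comm, Nat.div_add_mod]) (by omega)

end Pool.Agent.TH588.LQ
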