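import Mathlib
import Pool.Agent.TH588.LQ.Sim

/-!
# The size of the deterministic simulation
-/

set_option autoImplicit false

namespace Pool.Agent.TH588.LQ

open Pool.Agent.H630R2.LA Pool.Agent.H630R2.LA.Cmd Relation

variable {A : Type} {strict : Prop} {M : LimAut A} {ψ : A → M.W} {s : ℕ} {e : M.Q ≃ Fin s}

theorem cnt_bitP (src : Bool) (x : Bits M) : (bitP strict M e src x).cnt ≤ 3 * bl s := by
  have h := (cod M e x).isLt
  unfold bitP
  split
  · rw [cnt_chk]
    omega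
  · exact Nat.zero_le _

theorem cnt_edP {src : Bool} {n' : ℕ} {fn : Bool} (_hn : n' ≤ 2 * bl s) (u v : Vx M s) :
    (edP strict M ψ e src n' fn u v).cnt ≤ 6 * bl s + 3 := by
  unfold edP
  split
  · split
    · have := cnt_bitP (strict := strict) (e := e) src (Sum.inl (u.1, v.1))
      omega
    · exact Nat.zero_le _
  · split
    · rw [cnt_chk]
      omega
    · exact Nat.zero_le _

/-- The bound for the number of control states of the reachability program. -/
noncomputable def XX (M : LimAut A) (s K : ℕ) : ℕ := (2 * Nat.card (Vx M s)) ^ K * (6 * bl s + 3)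

theorem cnt_rea {K : ℕ} {src : Bool} {n' : ℕ} {fn : Bool} (hn : n' ≤ 2 * bl s) (u v : Vx M s) :
    (rea strict M ψ e K src n' fn u v).cnt ≤ XX M s K := by
  classical
  unfold rea XX
  have h := cnt_sav (l := lV M (s := s)) (ed := edP strict M ψ e src n' fn)
    (c := 6 * bl s + 3) (fun u v => cnt_edP hn u v) K u v
  rw [length_lV] at h
  convert h

theorem card_Q (e : M.Q ≃ Fin s) : Nat.card M.Q = s := by
  rw [Nat.card_congr e, Nat.card_eq_fintype_card, Fintype.card_fin]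

theorem XX_pos (hs : 1 ≤ s) (e : M.Q ≃ Fin s) (K : ℕ) : 6 * bl s + 3 ≤ XX M s K := by
  unfold XX
  have h1 : 1 ≤ Nat.card (Vx M s) := by
    rw [Nat.card_prod, card_Q e, Nat.card_prod]
    simp only [Nat.card_eq_fintype_card, Fintype.card_fin]
    have : 1 ≤ (2 * bl s + 2) * (2 * bl s + 2) := by nlinarith [Nat.zero_le (bl s)]
    nlinarith
  exact Nat.le_mul_of_pos_left _ (Nat.pow_pos (by omega))

theorem cnt_enP (hs : 1 ≤ s) {K : ℕ} {src : Bool} {n' : ℕ} {fn : Bool} (hn : n' ≤ 2 * bl s)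
    (q : M.Q) : (enP strict M ψ e K src n' fn q).cnt ≤ s * (2 * XX M s K) := by
  have hX := XX_pos (M := M) hs e K
  unfold enP
  refine (cnt_orL _ _ (2 * XX M s K) ?_).trans ?_
  · intro q0
    have h1 := cnt_bitP (strict := strict) (e := e) src (Sum.inr q0)
    have h2 := cnt_rea (strict := strict) (ψ := ψ) (e := e) (K := K) (src := src) (fn := fn) hn
      (mkv M q0 1 0) (mkv M q (nn n' fn + 1) (nn n' fn))
    simp only [cnt]
    omega
  · rw [length_lQ, card_Q e]

theorem cnt_qry (hs : 1 ≤ s) {K : ℕ} (k : Fin (bl s)) :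
    (qry strict M ψ e K k).cnt ≤ s * (2 * XX M s K) := by
  have hX := XX_pos (M := M) hs e K
  unfold qry
  split
  · refine (cnt_rea (by omega) _ _).trans ?_
    have : 1 * XX M s K ≤ s * (2 * XX M s K) := Nat.mul_le_mul hs (by omega)
    omega
  · exact cnt_enP hs (by omega) _

theorem cnt_acP (hs : 1 ≤ s) {K : ℕ} {src : Bool} {n' : ℕ} (hn : n' ≤ 2 * bl s) :
    (acP strict M ψ e K src n').cnt ≤ s * (s * (2 * XX M s K)) := by
  classical
  unfold acP
  refine (cnt_orL _ _ (s * (2 * XX M s K)) ?_).trans ?_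
  · intro f
    split
    · exact cnt_enP hs hn f
    · exact Nat.zero_le _
  · rw [length_lQ, card_Q e]

theorem plan_states (hs : 1 ≤ s) {K : ℕ} :
    Nat.card (plan strict M ψ e hs K).QS ≤
      6 * (bl s * (12 * (s * (s * (2 * XX M s K))))) := by
  have hB := two_le_bl hs
  have hX := XX_pos (M := M) hs e K
  have h1 : s * (2 * XX M s K) ≤ s * (s * (2 * XX M s K)) := Nat.le_mul_of_pos_left _ hs
  have h2 : 2 * XX M s K ≤ s * (2 * XX M s K) := Nat.le_mul_of_pos_left _ hs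
  refine Plan.card_QS_le (P := plan strict M ψ e hs K) (by omega) ?_ ?_
  · intro k
    have hk : k.val < bl s := k.isLt
    have h3 := cnt_qry (strict := strict) (ψ := ψ) (e := e) hs (K := K) k
    simp only [plan, cnt_mvs, cnt, cnt_thenRight]
    omega
  · intro k
    have hk : k.val < bl s := k.isLt
    have h3 := cnt_acP (strict := strict) (ψ := ψ) (e := e) hs (K := K) (src := false)
      (n' := k.val) (by omega)
    have h4 := cnt_acP (strict := strict) (ψ := ψ) (e := e) hs (K := K) (src := true)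
      (n' := bl s + k.val) (by omega)
    simp only [plan, cnt_mvs, cnt, cnt_thenRight]
    omega

/-- **Quasi-polynomial determinization.** -/
theorem exists_small [Finite A] (M : LimAut A) (strict : Prop) (ψ : A → M.W)
    (hψ : ∀ q a q' b d, (q', b, d) ∈ M.δ q (.sym (M.inp a)) → b = ψ a) :
    ∃ M' : LimAut A, M'.Deterministic ∧ M'.language strict = M.language strict ∧
      Nat.card M'.Q ≤ 2 ^ (160 * (Nat.log 2 (Nat.card M.Q) + 1) ^ 2) ∧
      Nat.card M'.W = 3 * Nat.card A + 1 ∧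
      M'.size ≤ 2 ^ (160 * (Nat.log 2 M.size + 1) ^ 2) := by
  have hfin := M.finQ
  have hq : Nat.card M.Q + Nat.card A + 3 ≤ M.size := by
    unfold LimAut.size
    omega
  have hq1 : 1 ≤ Nat.card M.Q := by
    have : Nonempty M.Q := ⟨M.q0⟩
    exact Nat.card_pos
  obtain ⟨s, hs⟩ : ∃ s, s = Nat.card M.Q := ⟨_, rfl⟩
  have e : M.Q ≃ Fin s := by rw [hs]; exact Finite.equivFin M.Q
  have hs1 : 1 ≤ s := by omega
  obtain ⟨g, hg⟩ : ∃ g, g = Nat.log 2 s + 1 := ⟨_, rfl⟩
  obtain ⟨G, hG⟩ : ∃ G, G = Nat.log 2 M.size + 1 := ⟨_, rfl⟩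
  have hg1 : 1 ≤ g := by omega
  have hgG : g ≤ G := by
    rw [hg, hG]
    exact Nat.add_le_add_right (Nat.log_mono_right (by omega)) 1
  have hsg : s ≤ 2 ^ g := by
    have : s < 2 ^ g := by
      rw [hg]
      exact Nat.lt_pow_succ_log_self (by omega) _
    omega
  have hag : Nat.card A + 1 ≤ 2 ^ G := by
    have : M.size < 2 ^ G := by
      rw [hG]
      exact Nat.lt_pow_succ_log_self (by omega) _
    omega
  -- powers
  have hss : s * s ≤ 2 ^ (2 * g) := by
    calc s * s ≤ 2 ^ g * 2 ^ g := Nat.mul_le_mul hsg hsg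
      _ = 2 ^ (2 * g) := by rw [← pow_add]; congr 1; ring
  have hB2 := two_le_bl hs1
  have hB : bl s ≤ 2 ^ (2 * g + 1) := by
    have h1 : 2 ^ (2 * g + 1) = 2 ^ (2 * g) + 2 ^ (2 * g) := by ring
    have h2 : 2 ^ g ≤ 2 ^ (2 * g) := Nat.pow_le_pow_right (by omega) (by omega)
    unfold bl
    omega
  have hC : 2 * bl s + 2 ≤ 2 ^ (2 * g + 3) := by
    have h1 : 2 ^ (2 * g + 3) = 4 * 2 ^ (2 * g + 1) := by ring
    omega
  have hE : 6 * bl s + 3 ≤ 2 ^ (2 * g + 4) := by
    have h1 : 2 ^ (2 * g + 4) = 8 * 2 ^ (2 * g + 1) := by ring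
    omega
  have hV : Nat.card (Vx M s) ≤ 2 ^ (5 * g + 6) := by
    rw [Nat.card_prod, card_Q e, Nat.card_prod]
    simp only [Nat.card_eq_fintype_card, Fintype.card_fin]
    calc s * ((2 * bl s + 2) * (2 * bl s + 2))
        ≤ 2 ^ g * (2 ^ (2 * g + 3) * 2 ^ (2 * g + 3)) :=
          Nat.mul_le_mul hsg (Nat.mul_le_mul hC hC)
      _ = 2 ^ (5 * g + 6) := by
          rw [← pow_add, ← pow_add]; congr 1; ring
  have hX : XX M s (5 * g + 6) ≤ 2 ^ ((5 * g + 7) * (5 * g + 6) + (2 * g + 4)) := by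
    unfold XX
    have h1 : 2 * Nat.card (Vx M s) ≤ 2 ^ (5 * g + 7) := by
      have h2 : 2 ^ (5 * g + 7) = 2 * 2 ^ (5 * g + 6) := by ring
      omega
    calc (2 * Nat.card (Vx M s)) ^ (5 * g + 6) * (6 * bl s + 3)
        ≤ (2 ^ (5 * g + 7)) ^ (5 * g + 6) * 2 ^ (2 * g + 4) :=
          Nat.mul_le_mul (Nat.pow_le_pow_left h1 _) hE
      _ = 2 ^ ((5 * g + 7) * (5 * g + 6) + (2 * g + 4)) := by
          rw [← pow_mul, ← pow_add]
  have h1 : bl s * (12 * (s * (s * (2 * XX M s (5 * g + 6))))) ≤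
      2 ^ (25 * g ^ 2 + 71 * g + 52) := by
    calc bl s * (12 * (s * (s * (2 * XX M s (5 * g + 6)))))
        = 24 * (bl s * ((s * s) * XX M s (5 * g + 6))) := by ring
      _ ≤ 2 ^ 5 * (2 ^ (2 * g + 1) * (2 ^ (2 * g) *
          2 ^ ((5 * g + 7) * (5 * g + 6) + (2 * g + 4)))) :=
          Nat.mul_le_mul (by norm_num) (Nat.mul_le_mul hB (Nat.mul_le_mul hss hX))
      _ = 2 ^ (25 * g ^ 2 + 71 * g + 52) := by
          rw [← pow_add, ← pow_add, ← pow_add]
          congr 1
          ring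
  have h2 := plan_states (strict := strict) (ψ := ψ) (e := e) hs1 (K := 5 * g + 6)
  have h3 : g ≤ g * g := Nat.le_mul_of_pos_left g hg1
  refine ⟨(plan strict M ψ e hs1 (5 * g + 6)).mach, Plan.mach_det _,
    plan_language hψ hs1 hV, ?_, card_WS A, ?_⟩
  · rw [← hs, ← hg]
    have h4 : Nat.card (plan strict M ψ e hs1 (5 * g + 6)).mach.Q ≤
        6 * (bl s * (12 * (s * (s * (2 * XX M s (5 * g + 6)))))) := h2
    refine h4.trans ?_
    calc 6 * (bl s * (12 * (s * (s * (2 * XX M s (5 * g + 6))))))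
        ≤ 2 ^ 3 * 2 ^ (25 * g ^ 2 + 71 * g + 52) := Nat.mul_le_mul (by norm_num) h1
      _ = 2 ^ (3 + (25 * g ^ 2 + 71 * g + 52)) := by rw [← pow_add]
      _ ≤ 2 ^ (160 * g ^ 2) := by
          apply Nat.pow_le_pow_right (by omega)
          rw [pow_two]
          omega
  · have hX1 : 1 ≤ bl s * (12 * (s * (s * (2 * XX M s (5 * g + 6))))) := by
      have h5 := XX_pos (M := M) hs1 e (5 * g + 6)
      have h6 : 1 ≤ 2 * XX M s (5 * g + 6) := by omega
      exact Nat.mul_pos (by omega) (Nat.mul_pos (by omega) (Nat.mul_pos hs1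
        (Nat.mul_pos hs1 h6)))
    refine (Plan.size_mach_le hX1 h2).trans ?_
    rw [← hG]
    calc 144 * (bl s * (12 * (s * (s * (2 * XX M s (5 * g + 6))))) * (Nat.card A + 1))
        ≤ 2 ^ 8 * (2 ^ (25 * g ^ 2 + 71 * g + 52) * 2 ^ G) :=
          Nat.mul_le_mul (by norm_num) (Nat.mul_le_mul h1 hag)
      _ = 2 ^ (8 + (25 * g ^ 2 + 71 * g + 52 + G)) := by rw [← pow_add, ← pow_add]
      _ ≤ 2 ^ (160 * G ^ 2) := by
          apply Nat.pow_le_pow_right (by omega)
          have h7 : g * g ≤ G * G := Nat.mul_le_mul hgG hgG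
          have h8 : G ≤ G * G := Nat.le_mul_of_pos_left G (by omega)
          rw [pow_two, pow_two]
          omega

end Pool.Agent.TH588.LQ
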