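import Mathlib
import Pool.Agent.H630R2.LA.Lower
import Pool.Agent.TH588.LQ.Size
import Pool.Agent.TH588.LQ.Defs

/-!
# The cost function for automata whose written symbols are determined by the letters
-/

set_option autoImplicit false

namespace Pool.Agent.TH588.LQ

open Pool.Agent.H630R2.LA Filter

theorem NeverRewrites.letterWriting {A : Type} {M : LimAut A} (h : NeverRewrites M) :
    LetterWriting M := by
  intro a
  refine ⟨M.inp a, fun q x hx => ?_⟩
  have h1 := h q _ x hx
  simp only [Sym.rewrite] at h1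
  injection h1

theorem small_of_letterWriting {A : Type} [Finite A] (M : LimAut A) (strict : Prop)
    (h : LetterWriting M) : ∃ M' : LimAut A, M'.Deterministic ∧
      M'.language strict = M.language strict ∧
      Nat.card M'.Q ≤ 2 ^ (160 * (Nat.log 2 (Nat.card M.Q) + 1) ^ 2) ∧
      Nat.card M'.W = 3 * Nat.card A + 1 ∧
      M'.size ≤ 2 ^ (160 * (Nat.log 2 M.size + 1) ^ 2) := by
  choose ψ hψ using h
  exact exists_small M strict ψ (fun q a q' b d hx => hψ a q (q', b, d) hx)

theorem mem_costsL_le (strict : Prop) (n s : ℕ) (hs : s ∈ costsL strict n) :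
    s ≤ 2 ^ (160 * (Nat.log 2 n + 1) ^ 2) := by
  obtain ⟨A, hA, M, hL, hM, rfl⟩ := hs
  obtain ⟨M', h1, h2, -, -, h3⟩ := small_of_letterWriting M strict hL
  have h4 : detSize strict (M.language strict) ≤ M'.size := Nat.sInf_le ⟨M', h1, h2, rfl⟩
  refine (h4.trans h3).trans (Nat.pow_le_pow_right (by omega) (Nat.mul_le_mul_left _ ?_))
  exact Nat.pow_le_pow_left (Nat.add_le_add_right (Nat.log_mono_right hM) 1) 2

theorem DL_le (strict : Prop) (n : ℕ) : DL strict n ≤ 2 ^ (160 * (Nat.log 2 n + 1) ^ 2) := by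
  unfold DL
  rcases Set.eq_empty_or_nonempty (costsL strict n) with h | h
  · rw [h, csSup_empty]
    exact Nat.zero_le _
  · exact csSup_le h (fun s hs => mem_costsL_le strict n s hs)

theorem costs_le (strict : Prop) (n s : ℕ) (hs : s ∈ costs strict n) :
    s ≤ 2 ^ ((n + 2) ^ 4) := by
  obtain ⟨A, hA, M, hM, rfl⟩ := hs
  obtain ⟨M', h1, h2, h3⟩ := upper M strict
  have h4 : detSize strict (M.language strict) ≤ M'.size := Nat.sInf_le ⟨M', h1, h2, rfl⟩
  refine (h4.trans h3).trans (Nat.pow_le_pow_right (by omega) ?_)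
  exact Nat.pow_le_pow_left (by omega) 4

theorem witness_detSize (strict : Prop) (n : ℕ) (hn : 2 ≤ n) :
    2 ^ n ≤ detSize strict ((witM n).language strict) ^ 2 := by
  obtain ⟨M', h1, h2, -⟩ := upper (witM n) strict
  have hne : {s | ∃ M : LimAut Bool, M.Deterministic ∧
      M.language strict = (witM n).language strict ∧ M.size = s}.Nonempty := ⟨_, M', h1, h2, rfl⟩
  obtain ⟨M, h3, h4, h5⟩ := Nat.sInf_mem hne
  have h6 : M.size = detSize strict ((witM n).language strict) := h5
  rw [← h6]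
  exact lower hn strict M h3 h4

/-- The (known) exponential lower bound for the unrestricted cost function. -/
theorem D_lower (strict : Prop) (m : ℕ) (hm : 1800 ≤ m) : 2 ^ m ≤ D strict m ^ 2400 := by
  obtain ⟨n, hn, h1, h2⟩ : ∃ n, 2 ≤ n ∧ 600 * (n + 1) ≤ m ∧ m ≤ 600 * (n + 2) :=
    ⟨m / 600 - 1, by omega, by omega, by omega⟩
  have hmem : detSize strict ((witM n).language strict) ∈ costs strict m :=
    ⟨Bool, inferInstance, witM n, (size_witM n).trans h1, rfl⟩
  have h3 : detSize strict ((witM n).language strict) ≤ D strict m :=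
    le_csSup ⟨_, fun s hs => costs_le strict m s hs⟩ hmem
  have h4 := witness_detSize strict n hn
  calc 2 ^ m ≤ 2 ^ (n * 1200) := Nat.pow_le_pow_right (by omega) (by omega)
    _ = (2 ^ n) ^ 1200 := by rw [pow_mul]
    _ ≤ (detSize strict ((witM n).language strict) ^ 2) ^ 1200 := Nat.pow_le_pow_left h4 _
    _ ≤ (D strict m ^ 2) ^ 1200 := Nat.pow_le_pow_left (Nat.pow_le_pow_left h3 2) _
    _ = D strict m ^ 2400 := by rw [← pow_mul]

theorem log_growth (C : ℕ) : ∀ᶠ n : ℕ in atTop, C * (Nat.log 2 n + 1) ^ 2 < n := by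
  have h1 : Tendsto (fun n : ℕ => Nat.log 2 n) atTop atTop := by
    refine tendsto_atTop.2 (fun b => ?_)
    filter_upwards [eventually_ge_atTop (2 ^ b)] with n hn
    exact Nat.le_log_of_pow_le (by omega) hn
  have h2 : ∀ᶠ l : ℕ in atTop, C * (l + 1) ^ 2 < 2 ^ l := by
    have h3 : Tendsto (fun l : ℕ => ((l : ℝ) ^ 2) / (2 : ℝ) ^ l) atTop (nhds 0) :=
      tendsto_pow_const_div_const_pow_of_one_lt 2 (by norm_num)
    have h4 := h3.eventually (gt_mem_nhds (show (0 : ℝ) < 1 / (4 * C + 1) by positivity))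
    filter_upwards [h4, eventually_ge_atTop 1] with l hl hl1
    have h5 : (0 : ℝ) < 2 ^ l := by positivity
    rw [div_lt_div_iff₀ h5 (by positivity)] at hl
    have h6 : (1 : ℝ) ≤ l := by exact_mod_cast hl1
    have h7 : ((l : ℝ) + 1) ^ 2 ≤ 4 * (l : ℝ) ^ 2 := by nlinarith
    have h8 : (C : ℝ) * ((l : ℝ) + 1) ^ 2 < 2 ^ l := by
      have h9 : (C : ℝ) * ((l : ℝ) + 1) ^ 2 ≤ C * (4 * (l : ℝ) ^ 2) :=
        mul_le_mul_of_nonneg_left h7 (Nat.cast_nonneg C)
      nlinarith [sq_nonneg (l : ℝ)]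
    exact_mod_cast h8
  filter_upwards [h1.eventually h2, eventually_ge_atTop 1] with n hn hn1
  exact lt_of_lt_of_le hn (Nat.pow_log_le_self 2 (by omega))

/-- Every power of the restricted cost function is eventually below the unrestricted one. -/
theorem gap (strict : Prop) (c : ℕ) : ∀ᶠ n : ℕ in atTop, DL strict n ^ c < D strict n := by
  filter_upwards [log_growth (160 * c * 2400), eventually_ge_atTop 1800] with n hn hn1
  have h1 := D_lower strict n hn1
  have h2 := DL_le strict n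
  by_contra hcon
  rw [not_lt] at hcon
  have h3 : D strict n ^ 2400 ≤ 2 ^ (160 * (Nat.log 2 n + 1) ^ 2 * c * 2400) := by
    calc D strict n ^ 2400 ≤ (DL strict n ^ c) ^ 2400 := Nat.pow_le_pow_left hcon _
      _ ≤ ((2 ^ (160 * (Nat.log 2 n + 1) ^ 2)) ^ c) ^ 2400 :=
          Nat.pow_le_pow_left (Nat.pow_le_pow_left h2 _) _
      _ = 2 ^ (160 * (Nat.log 2 n + 1) ^ 2 * c * 2400) := by
          rw [← pow_mul, ← pow_mul]
          congr 1
          ring
  have h4 : n ≤ 160 * (Nat.log 2 n + 1) ^ 2 * c * 2400 :=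
    (Nat.pow_le_pow_iff_right (by norm_num)).1 (h1.trans h3)
  have h5 : 160 * (Nat.log 2 n + 1) ^ 2 * c * 2400 = 160 * c * 2400 * (Nat.log 2 n + 1) ^ 2 := by
    ring
  omega

end Pool.Agent.TH588.LQ
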